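import Mathlib

/-!
# Sets of Bohr recurrence
-/

set_option autoImplicit false

namespace Pool.Agent.X305.Li

open Filter Topology

/-- `S` is a set of Bohr recurrence: for all finite families of real numbers `θ j` and `ε > 0`
there is a positive `n ∈ S` such that all `n * θ j` are at distance less than `ε` from the
integers. -/
def BohrRec (S : Set ℕ) : Prop := ∀ (k : ℕ) (θ : Fin k → ℝ) (ε : ℝ), 0 < ε →
  ∃ n ∈ S, 0 < n ∧ ∀ j, |n * θ j - round (n * θ j)| < ε

lemma norm_nsmul_coe (n : ℕ) (t : ℝ) :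
    ‖n • (t : UnitAddCircle)‖ = |n * t - round (n * t)| := by
  rw [← AddCircle.coe_nsmul, nsmul_eq_mul, UnitAddCircle.norm_eq]

lemma sep (N : ℕ) : ∃ δ : ℝ, 0 < δ ∧ ∀ m : ℕ, 0 < m → m < N →
    δ ≤ |m * Real.sqrt 2 - round (m * Real.sqrt 2)| := by
  induction N with
  | zero => exact ⟨1, one_pos, fun m _ h => absurd h (Nat.not_lt_zero _)⟩
  | succ N ih =>
    obtain ⟨δ, hδ, h⟩ := ih
    rcases Nat.eq_zero_or_pos N with h0 | h0
    · exact ⟨δ, hδ, fun m h1 h2 => absurd h1 (by omega)⟩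
    · have hirr : Irrational (N * Real.sqrt 2) :=
        irrational_sqrt_two.natCast_mul (by omega)
      have hpos : 0 < |N * Real.sqrt 2 - round (N * Real.sqrt 2)| := by
        rw [abs_pos, sub_ne_zero]
        exact hirr.ne_int _
      refine ⟨min δ |N * Real.sqrt 2 - round (N * Real.sqrt 2)|, lt_min hδ hpos,
        fun m h1 h2 => ?_⟩
      rcases Nat.lt_succ_iff_lt_or_eq.1 h2 with h3 | rfl
      · exact (min_le_left _ _).trans (h m h1 h3)
      · exact min_le_right _ _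

/-- There are arbitrarily large return times. -/
lemma BohrRec.large {S : Set ℕ} (hS : BohrRec S) {ι : Type} [Finite ι] (θ : ι → ℝ) {ε : ℝ}
    (hε : 0 < ε) (N : ℕ) :
    ∃ n ∈ S, N ≤ n ∧ 0 < n ∧ ∀ j, |n * θ j - round (n * θ j)| < ε := by
  obtain ⟨k, ⟨e⟩⟩ := Finite.exists_equiv_fin ι
  obtain ⟨δ, hδ, h⟩ := sep N
  obtain ⟨n, hn, hn0, h1⟩ := hS (k + 1) (Fin.cons (Real.sqrt 2) fun i => θ (e.symm i)) (min ε δ)
    (lt_min hε hδ)
  refine ⟨n, hn, ?_, hn0, fun j => ?_⟩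
  · by_contra hlt
    have h2 := h1 0
    rw [Fin.cons_zero] at h2
    exact absurd (h n hn0 (by omega)) (not_le.2 (h2.trans_le (min_le_right _ _)))
  · have h2 := h1 (e j).succ
    rw [Fin.cons_succ, Equiv.symm_apply_apply] at h2
    exact h2.trans_le (min_le_left _ _)

lemma pigeon (ι : Type) [Finite ι] {ε : ℝ} (hε : 0 < ε) : ∃ N : ℕ, ∀ u : ℕ → ι → UnitAddCircle,
    ∃ i j : ℕ, i < j ∧ j ≤ N ∧ ∀ c, ‖u j c - u i c‖ < ε := by
  classical
  have := Fintype.ofFinite ι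
  have hT : TotallyBounded (Set.univ : Set (ι → UnitAddCircle)) := isCompact_univ.totallyBounded
  obtain ⟨t, ht, hcov⟩ := Metric.totallyBounded_iff.1 hT (ε / 2) (half_pos hε)
  refine ⟨ht.toFinset.card, fun u => ?_⟩
  have hex : ∀ n : ℕ, ∃ y ∈ ht.toFinset, dist (u n) y < ε / 2 := by
    intro n
    have h1 := hcov (Set.mem_univ (u n))
    simp only [Set.mem_iUnion, Metric.mem_ball] at h1
    obtain ⟨y, hy, h2⟩ := h1
    exact ⟨y, ht.mem_toFinset.2 hy, h2⟩
  choose y hy hd using hex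
  obtain ⟨a, ha, b, hb, hab, heq⟩ := Finset.exists_ne_map_eq_of_card_lt_of_maps_to
    (s := Finset.range (ht.toFinset.card + 1)) (t := ht.toFinset) (f := y)
    (by rw [Finset.card_range]; exact Nat.lt_succ_self _) (fun n _ => hy n)
  have key : dist (u a) (u b) < ε := by
    have h1 := dist_triangle_right (u a) (u b) (y a)
    have h2 := hd a
    have h3 := hd b
    rw [← heq] at h3
    linarith
  have key2 : ∀ c, ‖u a c - u b c‖ < ε := fun c => by
    rw [← dist_eq_norm]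
    exact (dist_le_pi_dist (u a) (u b) c).trans_lt key
  rw [Finset.mem_range] at ha hb
  rcases lt_or_gt_of_ne hab with h | h
  · exact ⟨a, b, h, by omega, fun c => by rw [norm_sub_rev]; exact key2 c⟩
  · exact ⟨b, a, h, by omega, key2⟩

lemma lin {ι : Type} [Finite ι] (t : ι → UnitAddCircle) {ε : ℝ} (hε : 0 < ε) :
    ∃ x : ℕ, 0 < x ∧ ∀ i, ‖x • t i‖ < ε := by
  obtain ⟨N, h⟩ := pigeon ι hε
  obtain ⟨i, j, hij, -, h1⟩ := h fun n c => n • t c
  refine ⟨j - i, by omega, fun c => ?_⟩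
  rw [sub_nsmul _ hij.le]
  have := h1 c
  rwa [sub_eq_add_neg] at this

/-- The squares are a set of Bohr recurrence. -/
theorem bohrRec_sq : BohrRec {m | ∃ n : ℕ, 0 < n ∧ m = n ^ 2} := by
  intro k θ ε hε
  obtain ⟨N, hN⟩ := pigeon (Fin k) (half_pos hε)
  set δ : ℝ := ε / (2 * ((N : ℝ) ^ 2 + 1)) with hδ
  have hδ0 : 0 < δ := by positivity
  obtain ⟨f, hf0, hf⟩ := exists_seq_of_forall_finset_exists (fun x : ℕ => 0 < x)
    (fun x y : ℕ => ∀ j, ‖(2 * x * y) • ((θ j : ℝ) : UnitAddCircle)‖ < δ) (by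
      intro s _
      obtain ⟨y, hy, h⟩ := lin (fun c : s × Fin k => (2 * (c.1 : ℕ)) • ((θ c.2 : ℝ) : UnitAddCircle)) hδ0
      refine ⟨y, hy, fun x hx j => ?_⟩
      have h1 := h (⟨x, hx⟩, j)
      rwa [← mul_nsmul, show 2 * x * y = (2 * x) * y from rfl] at h1)
  obtain ⟨i, j, hij, hjN, h⟩ := hN fun n c => (∑ l ∈ Finset.range n, f l ^ 2) • ((θ c : ℝ) : UnitAddCircle)
  have key : ∀ c : Fin k, ∀ m : ℕ, i + m ≤ N →
      ‖((∑ l ∈ Finset.Ico i (i + m), f l) ^ 2) • ((θ c : ℝ) : UnitAddCircle) -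
        ((∑ l ∈ Finset.range (i + m), f l ^ 2) • ((θ c : ℝ) : UnitAddCircle) -
          (∑ l ∈ Finset.range i, f l ^ 2) • ((θ c : ℝ) : UnitAddCircle))‖ ≤ m * (N * δ) := by
    intro c m
    induction m with
    | zero => simp
    | succ m ih =>
      intro hm
      have ih' := ih (by omega)
      set T : UnitAddCircle := ((θ c : ℝ) : UnitAddCircle)
      have e1 : ((∑ l ∈ Finset.Ico i (i + (m + 1)), f l) ^ 2) • T =
          ((∑ l ∈ Finset.Ico i (i + m), f l) ^ 2) • T + (f (i + m) ^ 2) • T +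
            ∑ l ∈ Finset.Ico i (i + m), (2 * f l * f (i + m)) • T := by
        rw [← Finset.sum_smul, ← add_nsmul, ← add_nsmul]
        congr 1
        rw [← add_assoc, Finset.sum_Ico_succ_top (by omega), ← Finset.sum_mul, ← Finset.mul_sum]
        ring
      have e2 : (∑ l ∈ Finset.range (i + (m + 1)), f l ^ 2) • T =
          (∑ l ∈ Finset.range (i + m), f l ^ 2) • T + (f (i + m) ^ 2) • T := by
        rw [← add_nsmul, ← add_assoc, Finset.sum_range_succ]
      rw [e1, e2]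
      have e3 : ∀ A B C D E : UnitAddCircle, A + B + C - (D + B - E) = (A - (D - E)) + C := by
        intro A B C D E; abel
      rw [e3]
      refine (norm_add_le _ _).trans ?_
      have h4 : ‖∑ l ∈ Finset.Ico i (i + m), (2 * f l * f (i + m)) • T‖ ≤ N * δ := by
        refine (norm_sum_le _ _).trans ?_
        have h5 : ∀ l ∈ Finset.Ico i (i + m), ‖(2 * f l * f (i + m)) • T‖ ≤ δ := by
          intro l hl
          rw [Finset.mem_Ico] at hl
          exact (hf l (i + m) hl.2 c).le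
        refine (Finset.sum_le_sum h5).trans ?_
        rw [Finset.sum_const, Nat.card_Ico, nsmul_eq_mul]
        refine mul_le_mul_of_nonneg_right ?_ hδ0.le
        exact_mod_cast (by omega : i + m - i ≤ N)
      push_cast
      linarith
  refine ⟨(∑ l ∈ Finset.Ico i j, f l) ^ 2, ⟨_, ?_, rfl⟩, ?_, fun c => ?_⟩
  · exact Finset.sum_pos (fun l _ => hf0 l) ⟨i, Finset.mem_Ico.2 ⟨le_rfl, hij⟩⟩
  · exact pow_pos (Finset.sum_pos (fun l _ => hf0 l) ⟨i, Finset.mem_Ico.2 ⟨le_rfl, hij⟩⟩) 2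
  · rw [← norm_nsmul_coe]
    have h1 := key c (j - i) (by omega)
    rw [show i + (j - i) = j by omega] at h1
    have h2 := h c
    have h3 := norm_add_le (((∑ l ∈ Finset.Ico i j, f l) ^ 2) • ((θ c : ℝ) : UnitAddCircle) -
        ((∑ l ∈ Finset.range j, f l ^ 2) • ((θ c : ℝ) : UnitAddCircle) -
          (∑ l ∈ Finset.range i, f l ^ 2) • ((θ c : ℝ) : UnitAddCircle)))
      ((∑ l ∈ Finset.range j, f l ^ 2) • ((θ c : ℝ) : UnitAddCircle) -
          (∑ l ∈ Finset.range i, f l ^ 2) • ((θ c : ℝ) : UnitAddCircle))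
    rw [sub_add_cancel] at h3
    have h4 : ((j - i : ℕ) : ℝ) * (N * δ) ≤ ε / 2 := by
      have h5 : ((j - i : ℕ) : ℝ) ≤ N := by exact_mod_cast (by omega : j - i ≤ N)
      have h6 : (N : ℝ) * (N * δ) ≤ ε / 2 := by
        rw [hδ]
        rw [← mul_assoc, mul_div_assoc', div_le_iff₀ (by positivity)]
        nlinarith [sq_nonneg (N : ℝ)]
      exact (mul_le_mul_of_nonneg_right h5 (by positivity)).trans h6
    linarith

/-- Difference sets of infinite sets are sets of Bohr recurrence. -/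
theorem bohrRec_diff {A : Set ℕ} (hA : A.Infinite) :
    BohrRec {m | ∃ a ∈ A, ∃ b ∈ A, b < a ∧ m = a - b} := by
  intro k θ ε hε
  have : Infinite A := hA.to_subtype
  classical
  set e : ℕ → ℕ := fun n => (Nat.Subtype.orderIsoOfNat A n : ℕ) with he
  have hm : StrictMono e := fun a b hab => by
    exact (Nat.Subtype.orderIsoOfNat A).strictMono hab
  obtain ⟨N, hN⟩ := pigeon (Fin k) hε
  obtain ⟨i, j, hij, -, h⟩ := hN fun n c => e n • ((θ c : ℝ) : UnitAddCircle)
  refine ⟨e j - e i, ⟨e j, (Nat.Subtype.orderIsoOfNat A j).2, e i, (Nat.Subtype.orderIsoOfNat A i).2,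
    hm hij, rfl⟩, Nat.sub_pos_of_lt (hm hij), fun c => ?_⟩
  rw [← norm_nsmul_coe, sub_nsmul _ (hm hij).le]
  have := h c
  rwa [sub_eq_add_neg] at this

/-- Sets containing arbitrarily long intervals are sets of Bohr recurrence. -/
theorem bohrRec_thick {S : Set ℕ} (hS : ∀ N : ℕ, ∃ a : ℕ, ∀ i ≤ N, a + i ∈ S) : BohrRec S := by
  intro k θ ε hε
  set t : Fin k → UnitAddCircle := fun c => ((θ c : ℝ) : UnitAddCircle) with ht
  have huniv : BohrRec Set.univ := by
    intro k' θ' ε' hε'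
    obtain ⟨x, hx, h⟩ := lin (fun c => ((θ' c : ℝ) : UnitAddCircle)) hε'
    refine ⟨x, Set.mem_univ _, hx, fun c => ?_⟩
    rw [← norm_nsmul_coe]
    exact h c
  have hO : TotallyBounded {x : Fin k → UnitAddCircle | ∃ i : ℕ, 0 < i ∧ x = i • t} :=
    isCompact_univ.totallyBounded.subset (Set.subset_univ _)
  obtain ⟨s, hs, hfin, hcov⟩ := Metric.finite_approx_of_totallyBounded hO (ε / 2) (half_pos hε)
  have hs' : ∀ y : Fin k → UnitAddCircle, y ∈ s → ∃ i : ℕ, 0 < i ∧ y = i • t := fun y hy => hs hy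
  choose! I hI using hs'
  obtain ⟨N, hN⟩ : ∃ N, ∀ y ∈ s, I y ≤ N := by
    obtain ⟨N, hN⟩ := (hfin.image I).bddAbove
    exact ⟨N, fun y hy => hN (Set.mem_image_of_mem I hy)⟩
  obtain ⟨a, ha⟩ := hS N
  obtain ⟨q, -, hqa, hq0, hq⟩ := huniv.large θ (half_pos hε) (a + 1)
  have h1 : (q - a) • t ∈ {x : Fin k → UnitAddCircle | ∃ i : ℕ, 0 < i ∧ x = i • t} :=
    ⟨q - a, by omega, rfl⟩
  have h2 := hcov h1
  simp only [Set.mem_iUnion, Metric.mem_ball] at h2
  obtain ⟨y, hy, h3⟩ := h2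
  obtain ⟨hI0, hIy⟩ := hI y hy
  refine ⟨a + I y, ha _ (hN y hy), by omega, fun c => ?_⟩
  rw [← norm_nsmul_coe]
  have h4 : dist (((q - a) • t) c) (y c) < ε / 2 := (dist_le_pi_dist _ _ c).trans_lt h3
  have h5 : y c = I y • t c := congrFun hIy c
  rw [h5, Pi.smul_apply, dist_eq_norm] at h4
  have h6 := hq c
  rw [← norm_nsmul_coe] at h6
  have e1 : (a + I y) • t c = q • t c - ((q - a) • t c - I y • t c) := by
    have : q • t c = (q - a) • t c + a • t c := by
      rw [← add_nsmul]; congr 1; omega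
    rw [this, add_nsmul]
    abel
  have h7 : ‖(a + I y) • t c‖ ≤ ‖q • t c‖ + ‖(q - a) • t c - I y • t c‖ := by
    rw [e1]; exact norm_sub_le _ _
  have h8 : ‖q • t c‖ < ε / 2 := h6
  change ‖(a + I y) • t c‖ < ε
  linarith

end Pool.Agent.X305.Li
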