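import Pool.Agent.X305.Li.RawGr

/-!
# Li's criterion for elliptic curves over abelian number fields
-/

set_option autoImplicit false

namespace Pool.Agent.X305.Li

open Complex Filter Topology UpperHalfPlane MatrixGroups CongruenceSubgroup
open scoped ComplexConjugate
open Pool.Agent.W355.UN Pool.Agent.W355.LJ
open Pool.Agent.W169.HF (IsForm coef)

/-- shifts -/
lemma Gr.shift {F : ℂ → ℂ} (hF : Gr F) (κ b : ℂ) : Gr fun s => κ * F (s - b) := by
  obtain ⟨K, hK⟩ := hF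
  obtain ⟨K2, -, hK2⟩ := poly_le (norm_nonneg κ) 0
  refine ⟨K2 + |K| * (1 + ‖b‖) ^ (3 / 2 : ℝ), fun s => ?_⟩
  rw [norm_mul, add_mul, Real.exp_add]
  have h1 := hK2 s
  rw [pow_zero, mul_one] at h1
  refine mul_le_mul h1 ((hK _).trans (Real.exp_le_exp.2 ?_)) (norm_nonneg _) (Real.exp_pos _).le
  have h2 : (1 + ‖s - b‖) ^ (3 / 2 : ℝ) ≤ (1 + ‖b‖) ^ (3 / 2 : ℝ) * (1 + ‖s‖) ^ (3 / 2 : ℝ) := by
    rw [← Real.mul_rpow (by positivity) (by positivity)]
    apply Real.rpow_le_rpow (by positivity) _ (by norm_num)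
    have h3 := norm_sub_le s b
    have h4 := norm_nonneg s
    have h5 := norm_nonneg b
    nlinarith
  have h3 : 0 ≤ (1 + ‖s - b‖) ^ (3 / 2 : ℝ) := by positivity
  calc K * (1 + ‖s - b‖) ^ (3 / 2 : ℝ) ≤ |K| * (1 + ‖s - b‖) ^ (3 / 2 : ℝ) := by
        have := le_abs_self K
        gcongr
    _ ≤ |K| * ((1 + ‖b‖) ^ (3 / 2 : ℝ) * (1 + ‖s‖) ^ (3 / 2 : ℝ)) := by
        have := abs_nonneg K
        gcongr
    _ = _ := by ring

theorem pk_list' {ι : Type} (d : ι → ℕ) (N : ι → ℝ) (cn : ι → ℝ → ℝ) (G : ι → ℂ → ℂ)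
    (h : ∀ i, ∃ X : ℂ → ℂ, Pk (d i) (N i) (cn i) (G i) X ∧ Gr X) (l : List ι) (hl : l ≠ []) :
    ∃ X : ℂ → ℂ, Pk (l.map d).sum (l.map N).prod (fun y => (l.map fun i => cn i y).prod)
      (fun s => (l.map fun i => G i s).prod) X ∧ Gr X := by
  induction l with
  | nil => exact absurd rfl hl
  | cons a l ih =>
    obtain ⟨X1, h1, g1⟩ := h a
    rcases eq_or_ne l [] with rfl | hne
    · refine ⟨X1, ?_, g1⟩
      simpa using h1
    · obtain ⟨X2, h2, g2⟩ := ih hne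
      refine ⟨fun s => X1 s * X2 s, ?_, g1.mul g2⟩
      simp only [List.map_cons, List.sum_cons, List.prod_cons]
      exact h1.mul h2

variable {N : ℕ} [NeZero N] {f : CuspForm (Gamma0 N : Subgroup (GL (Fin 2) ℝ)) 2} {w : ℝ}
variable {M : ℕ} [NeZero M] (G : Subgroup (DirichletCharacter ℂ M)) [Fintype G]

/-- the L-function of `E` over `K`, normalised to `Re s = 1/2` -/
theorem pk_ab' (hf : IsForm N f w) (hco : Nat.Coprime M N) :
    ∃ X : ℂ → ℂ, Pk (2 * Fintype.card G) (condA G N)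
      (fun y => ∏ χ : G, cnE N (χ : DirichletCharacter ℂ M).conductor y)
      (fun s => kap G N * prodE G f (s + 1 / 2)) X ∧ Gr X := by
  have hE := eu2_of hf
  have hnf := isNewf_of hf
  have hone : ∀ χ : G, ∃ X : ℂ → ℂ, Pk 2 ((N : ℝ) * ((χ : DirichletCharacter ℂ M).conductor : ℝ) ^ 2)
      (cnE N (χ : DirichletCharacter ℂ M).conductor)
      (fun s => (2 * ((Real.sqrt N * ((χ : DirichletCharacter ℂ M).conductor : ℝ) : ℝ) : ℂ) ^
        (-(1 / 2) : ℂ)) * facE f (χ : DirichletCharacter ℂ M).primitiveCharacter (s + 1 / 2)) X ∧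
      Gr X := by
    intro χ
    haveI : NeZero (χ : DirichletCharacter ℂ M).conductor := ⟨DirichletCharacter.conductor_ne_zero _⟩
    obtain ⟨c, X, h⟩ := tw_raw f hE hnf (χ : DirichletCharacter ℂ M).primitiveCharacter
      (DirichletCharacter.primitiveCharacter_isPrimitive _) (coprime_cond hco _)
    refine ⟨X, (pk_raw h).congr (fun y => rfl) ⟨2, fun s hs => ?_⟩, raw_gr h⟩
    exact fac_eq hE (Nat.pos_of_ne_zero (NeZero.ne _)) _ (by linarith)
  have hl : (Finset.univ : Finset G).toList ≠ [] := by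
    intro h
    have h1 : (1 : G) ∈ (Finset.univ : Finset G).toList := Finset.mem_toList.2 (Finset.mem_univ _)
    rw [h] at h1
    exact List.not_mem_nil h1
  obtain ⟨X, h, hg⟩ := pk_list' _ _ _ _ hone (Finset.univ : Finset G).toList hl
  refine ⟨X, ?_, hg⟩
  simp only [Finset.prod_map_toList, Finset.sum_map_toList] at h
  rw [Finset.sum_const, Finset.card_univ, smul_eq_mul, mul_comm] at h
  refine h.congr (fun y => rfl) ⟨0, fun s _ => ?_⟩
  unfold kap prodE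
  rw [Finset.prod_mul_distrib]

/-- the completed L-function of `E` over `K` -/
theorem ab_completed (hf : IsForm N f w) (hco : Nat.Coprime M N) :
    ∃ Λ : ℂ → ℂ, (∃ σ : ℝ, ∀ s : ℂ, σ ≤ s.re → Λ s = prodE G f s) ∧
      (∃ W : ℂ, ‖W‖ = 1 ∧ ∀ s : ℂ, Λ (2 - s) = W * conj (Λ (conj s))) ∧
      (∀ s : ℂ, 3 / 2 < s.re → Λ s ≠ 0) ∧ CompletedL Λ 1 := by
  obtain ⟨X, hpk, hgr⟩ := pk_ab' G hf hco
  have hdiff := hpk.diff
  obtain ⟨w', hw', hfe⟩ := hpk.fe
  obtain ⟨μ, L, u, ec, σ, hσ⟩ := hpk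
  have hNpos : 0 < N := Nat.pos_of_ne_zero (NeZero.ne N)
  have hκ := kap_ne G hNpos
  have hκi : (kap G N)⁻¹ ≠ 0 := inv_ne_zero hκ
  have hre : ∀ s : ℂ, (s - 1 / 2).re = s.re - 1 / 2 := fun s => by simp
  set Λ : ℂ → ℂ := fun s => (kap G N)⁻¹ * X (s - 1 / 2) with hΛ
  have hd : Differentiable ℂ Λ :=
    (hdiff.comp (by fun_prop : Differentiable ℂ fun s : ℂ => s - 1 / 2)).const_mul _
  have hfe2 : ∃ W : ℂ, ‖W‖ = 1 ∧ ∀ s : ℂ, Λ (2 - s) = W * conj (Λ (conj s)) := by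
    refine ⟨(kap G N)⁻¹ * w' * conj (kap G N), ?_, fun s => ?_⟩
    · rw [norm_mul, norm_mul, norm_inv, RCLike.norm_conj, hw', mul_one,
        inv_mul_cancel₀ (norm_ne_zero_iff.2 hκ)]
    · show (kap G N)⁻¹ * X (2 - s - 1 / 2) =
        (kap G N)⁻¹ * w' * conj (kap G N) * conj ((kap G N)⁻¹ * X (conj s - 1 / 2))
      have h1 : (2 - s - 1 / 2 : ℂ) = 1 - (s - 1 / 2) := by ring
      have h2 : conj (s - 1 / 2) = conj s - 1 / 2 := by
        rw [map_sub, map_div₀, map_one, map_ofNat]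
      have h3 : conj (kap G N) ≠ 0 := (map_ne_zero _).2 hκ
      rw [h1, hfe, h2, map_mul, map_inv₀]
      field_simp
  have hne : ∀ s : ℂ, 3 / 2 < s.re → Λ s ≠ 0 := fun s hs =>
    mul_ne_zero hκi (u.Xne (by rw [hre]; linarith))
  refine ⟨Λ, ⟨σ + 1 / 2, fun s hs => ?_⟩, hfe2, hne, hd, ⟨2, hne 2 (by norm_num)⟩, ?_, ?_⟩
  · show (kap G N)⁻¹ * X (s - 1 / 2) = prodE G f s
    rw [hσ (s - 1 / 2) (by rw [hre]; linarith)]
    show (kap G N)⁻¹ * (kap G N * prodE G f (s - 1 / 2 + 1 / 2)) = prodE G f s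
    rw [sub_add_cancel, inv_mul_cancel_left₀ hκ]
  · obtain ⟨W, hW, h1⟩ := hfe2
    refine ⟨W, hW, fun s => ?_⟩
    rw [← h1]
    congr 1
    push_cast
    ring
  · exact hgr.shift _ _

end Pool.Agent.X305.Li
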