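import Mathlib

/-!
# Li coefficients: the contributions of the zeros
-/

set_option autoImplicit false

namespace Pool.Agent.X305.Li

open Complex Filter Topology Polynomial

/-- The Taylor coefficient at `0`. -/
noncomputable def tc (n : ℕ) (g : ℂ → ℂ) : ℂ := iteratedDeriv n g 0 / (n.factorial : ℂ)

/-- `(s - 1/2)²` for `s = 1 / (1 - w)`. -/
noncomputable def xw (w : ℂ) : ℂ := (1 / (1 - w) - 1 / 2) ^ 2

lemma tc_congr {f g : ℂ → ℂ} (h : f =ᶠ[𝓝 0] g) (n : ℕ) : tc n f = tc n g := by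
  unfold tc
  rw [h.iteratedDeriv_eq n]

lemma tc_add {f g : ℂ → ℂ} (hf : AnalyticAt ℂ f 0) (hg : AnalyticAt ℂ g 0) (n : ℕ) :
    tc n (fun w => f w + g w) = tc n f + tc n g := by
  unfold tc
  have h := iteratedDeriv_add (n := n) (hf.contDiffAt (n := n)) (hg.contDiffAt (n := n))
  rw [show (fun w => f w + g w) = f + g from rfl, h, add_div]

lemma tc_const_mul {f : ℂ → ℂ} (c : ℂ) (n : ℕ) :
    tc n (fun w => c * f w) = c * tc n f := by
  unfold tc
  rw [iteratedDeriv_const_mul_field, mul_div_assoc]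

lemma tc_geom (c : ℂ) (n : ℕ) : tc n (fun w => (1 - c * w)⁻¹) = c ^ n := by
  unfold tc
  have h := congrFun (iter_deriv_inv_linear n (-c) (1 : ℂ)) 0
  have e : (fun w : ℂ => (1 - c * w)⁻¹) = fun w => (-c * w + 1)⁻¹ := by
    funext w; congr 1; ring
  rw [e, iteratedDeriv_eq_iterate, h]
  have hf : (n.factorial : ℂ) ≠ 0 := by exact_mod_cast n.factorial_ne_zero
  rw [mul_zero, zero_add, one_zpow, mul_one, neg_pow, div_eq_iff hf]
  have h1 : ((-1 : ℂ) ^ n) * (-1) ^ n = 1 := by rw [← mul_pow]; simp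
  linear_combination c ^ n * n.factorial * h1

lemma analyticAt_logDeriv {f : ℂ → ℂ} (hf : AnalyticAt ℂ f 0) (h0 : f 0 ≠ 0) :
    AnalyticAt ℂ (logDeriv f) 0 := by
  have h := hf.deriv.div hf h0
  exact h

lemma tc_logDeriv_mul {f g : ℂ → ℂ} (hf : AnalyticAt ℂ f 0) (hg : AnalyticAt ℂ g 0)
    (hf0 : f 0 ≠ 0) (hg0 : g 0 ≠ 0) (n : ℕ) :
    tc n (logDeriv fun w => f w * g w) = tc n (logDeriv f) + tc n (logDeriv g) := by
  rw [← tc_add (analyticAt_logDeriv hf hf0) (analyticAt_logDeriv hg hg0)]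
  apply tc_congr
  filter_upwards [hf.eventually_analyticAt, hg.eventually_analyticAt,
    hf.continuousAt.eventually_ne hf0, hg.continuousAt.eventually_ne hg0] with w h1 h2 h3 h4
  exact logDeriv_mul w h3 h4 h1.differentiableAt h2.differentiableAt

lemma tc_logDeriv_const (c : ℂ) (n : ℕ) : tc n (logDeriv fun _ => c) = 0 := by
  rw [logDeriv_const]
  unfold tc
  have : iteratedDeriv n (0 : ℂ → ℂ) 0 = 0 := by
    have h := iteratedDeriv_const (n := n) (c := (0 : ℂ)) (x := (0 : ℂ)) (𝕜 := ℂ)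
    simp only [ite_self] at h
    exact h
  rw [this, zero_div]

lemma xw_zero : xw 0 = 1 / 4 := by unfold xw; norm_num

lemma analyticAt_xw : AnalyticAt ℂ xw 0 := by
  unfold xw
  have h : AnalyticAt ℂ (fun w : ℂ => 1 - w) 0 := analyticAt_const.sub analyticAt_id
  have h1 : (1 : ℂ) - 0 ≠ 0 := by norm_num
  exact ((analyticAt_const.div h h1).sub analyticAt_const).pow 2

/-- the factorisation of `x(w) - a` -/
lemma xw_sub {w z a : ℂ} (hw : w ≠ 1) (hz : z ≠ 1) (ha : xw z = a) :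
    xw w - a = (w - z) * (1 - z * w) / ((1 - w) ^ 2 * (1 - z) ^ 2) := by
  have h1 : (1 : ℂ) - w ≠ 0 := sub_ne_zero.2 (Ne.symm hw)
  have h2 : (1 : ℂ) - z ≠ 0 := sub_ne_zero.2 (Ne.symm hz)
  rw [← ha]
  unfold xw
  field_simp
  ring

lemma tc_factor {z a : ℂ} (hz0 : z ≠ 0) (hz : z ≠ 1) (ha : xw z = a) (n : ℕ) :
    tc n (logDeriv fun w => xw w - a) = 2 - z ^ (n + 1) - (z ^ (n + 1))⁻¹ := by
  have han : AnalyticAt ℂ (fun w : ℂ => (1 - w)⁻¹) 0 := by
    have h : AnalyticAt ℂ (fun w : ℂ => 1 - w) 0 := analyticAt_const.sub analyticAt_id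
    exact h.inv (by norm_num)
  have han2 : AnalyticAt ℂ (fun w : ℂ => (1 - z * w)⁻¹) 0 := by
    have h : AnalyticAt ℂ (fun w : ℂ => 1 - z * w) 0 :=
      analyticAt_const.sub (analyticAt_const.mul analyticAt_id)
    exact h.inv (by norm_num)
  have han3 : AnalyticAt ℂ (fun w : ℂ => (1 - z⁻¹ * w)⁻¹) 0 := by
    have h : AnalyticAt ℂ (fun w : ℂ => 1 - z⁻¹ * w) 0 :=
      analyticAt_const.sub (analyticAt_const.mul analyticAt_id)
    exact h.inv (by norm_num)
  have e : (logDeriv fun w => xw w - a) =ᶠ[𝓝 0] fun w =>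
      2 * (1 - 1 * w)⁻¹ + (-z * (1 - z * w)⁻¹ + -z⁻¹ * (1 - z⁻¹ * w)⁻¹) := by
    have c1 : ∀ᶠ w : ℂ in 𝓝 0, w ≠ 1 := continuousAt_id.eventually_ne (by norm_num)
    have c2 : ∀ᶠ w : ℂ in 𝓝 0, w ≠ z := continuousAt_id.eventually_ne (Ne.symm hz0)
    have c3 : ∀ᶠ w : ℂ in 𝓝 0, 1 - z * w ≠ 0 :=
      (continuousAt_const.sub (continuousAt_const.mul continuousAt_id)).eventually_ne (by simp)
    filter_upwards [c1, c2, c3] with w h1 h2 h3
    have k1 : (1 : ℂ) - w ≠ 0 := sub_ne_zero.2 (Ne.symm h1)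
    have k2 : (1 : ℂ) - z ≠ 0 := sub_ne_zero.2 (Ne.symm hz)
    have k3 : w - z ≠ 0 := sub_ne_zero.2 h2
    have hd : HasDerivAt (fun w => xw w - a) (2 * (1 / (1 - w) - 1 / 2) * (1 / (1 - w) ^ 2)) w := by
      have d1 : HasDerivAt (fun w : ℂ => 1 - w) (-1) w := (hasDerivAt_id w).const_sub 1
      have d2 : HasDerivAt (fun w : ℂ => 1 / (1 - w)) (1 / (1 - w) ^ 2) w := by
        have h := d1.fun_inv k1
        rw [neg_neg] at h
        have e1 : (fun w : ℂ => 1 / (1 - w)) = fun w => (1 - w)⁻¹ := by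
          funext w; rw [one_div]
        rw [e1]
        exact h
      have d3 := ((d2.sub_const (1 / 2)).fun_pow 2).sub_const a
      simpa [xw] using d3
    rw [logDeriv_apply, hd.deriv, xw_sub h1 hz ha]
    have k4 : (1 : ℂ) - z⁻¹ * w ≠ 0 := by
      intro h
      apply k3
      field_simp at h
      linear_combination -h
    have k5 : (1 : ℂ) - z⁻¹ * w = -(w - z) / z := by field_simp; ring
    have k6 : (1 : ℂ) - w * z ≠ 0 := by rwa [mul_comm w z]
    rw [k5, one_mul, mul_comm z w]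
    field_simp
    ring
  have a1 : AnalyticAt ℂ (fun w : ℂ => 2 * (1 - 1 * w)⁻¹) 0 := by
    simp only [one_mul]; exact analyticAt_const.mul han
  have a2 : AnalyticAt ℂ (fun w : ℂ => -z * (1 - z * w)⁻¹) 0 := analyticAt_const.mul han2
  have a3 : AnalyticAt ℂ (fun w : ℂ => -z⁻¹ * (1 - z⁻¹ * w)⁻¹) 0 := analyticAt_const.mul han3
  have a4 : AnalyticAt ℂ (fun w : ℂ => -z * (1 - z * w)⁻¹ + -z⁻¹ * (1 - z⁻¹ * w)⁻¹) 0 := a2.add a3
  rw [tc_congr e, tc_add a1 a4, tc_add a2 a3, tc_const_mul, tc_const_mul, tc_const_mul,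
    tc_geom, tc_geom, tc_geom, one_pow, inv_pow]
  field_simp
  ring

/-- The point `w` with `x(w) = a` in the closed unit disc. -/
noncomputable def zz (a : ℂ) : ℂ := 1 - 1 / (1 / 2 + a ^ (1 / 2 : ℂ))

lemma sqrt_re (a : ℂ) : 0 ≤ (a ^ (1 / 2 : ℂ)).re := by
  rcases eq_or_ne a 0 with rfl | h
  · rw [Complex.zero_cpow (by norm_num)]; simp
  · rw [Complex.cpow_def_of_ne_zero h]
    have h1 : (Complex.log a * (1 / 2)).im = a.arg / 2 := by
      have : (1 / 2 : ℂ) = ((1 / 2 : ℝ) : ℂ) := by norm_num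
      rw [this, Complex.im_mul_ofReal, Complex.log_im]
      ring
    rw [Complex.exp_re, h1]
    have h2 := Complex.neg_pi_lt_arg a
    have h3 := Complex.arg_le_pi a
    refine mul_nonneg (Real.exp_pos _).le (Real.cos_nonneg_of_mem_Icc ⟨by linarith, by linarith⟩)

lemma sqrt_sq (a : ℂ) : (a ^ (1 / 2 : ℂ)) ^ 2 = a := by
  have h := Complex.cpow_nat_inv_pow a (n := 2) two_ne_zero
  simpa [one_div] using h

lemma s_ne (a : ℂ) : (1 / 2 + a ^ (1 / 2 : ℂ)) ≠ 0 := by
  intro h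
  have h1 := sqrt_re a
  have h2 := congrArg Complex.re h
  rw [Complex.add_re, Complex.zero_re] at h2
  have h3 : (1 / 2 : ℂ).re = 1 / 2 := by norm_num
  rw [h3] at h2
  linarith

lemma zz_ne_one (a : ℂ) : zz a ≠ 1 := by
  unfold zz
  intro h
  have h1 : (1 : ℂ) / (1 / 2 + a ^ (1 / 2 : ℂ)) = 0 := by linear_combination -h
  rw [div_eq_zero_iff] at h1
  rcases h1 with h1 | h1
  · exact one_ne_zero h1
  · exact s_ne a h1

lemma xw_zz (a : ℂ) : xw (zz a) = a := by
  unfold xw zz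
  have h := s_ne a
  rw [sub_sub_cancel, one_div_one_div]
  rw [add_sub_cancel_left, sqrt_sq]

lemma zz_ne_zero {a : ℂ} (ha : a ≠ 1 / 4) : zz a ≠ 0 := by
  intro h
  apply ha
  rw [← xw_zz a, h, xw_zero]

/-- `x` is injective on the open unit disc, with the closed disc -/
lemma xw_inj {w z : ℂ} (hw : ‖w‖ < 1) (hz : ‖z‖ ≤ 1) (hz1 : z ≠ 1) (h : xw w = xw z) : w = z := by
  have hw1 : w ≠ 1 := by
    rintro rfl
    rw [norm_one] at hw
    exact lt_irrefl _ hw
  have h1 := xw_sub hw1 hz1 rfl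
  rw [h, sub_self, eq_comm, div_eq_zero_iff] at h1
  have k1 : (1 : ℂ) - w ≠ 0 := sub_ne_zero.2 (Ne.symm hw1)
  have k2 : (1 : ℂ) - z ≠ 0 := sub_ne_zero.2 (Ne.symm hz1)
  rcases h1 with h1 | h1
  · rcases mul_eq_zero.1 h1 with h2 | h2
    · exact sub_eq_zero.1 h2
    · exfalso
      have h3 : z * w = 1 := by linear_combination -h2
      have h4 := congrArg norm h3
      rw [norm_mul, norm_one] at h4
      nlinarith [norm_nonneg w, norm_nonneg z]
  · exact absurd h1 (mul_ne_zero (pow_ne_zero _ k1) (pow_ne_zero _ k2))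

/-- `Re s ≥ 1/2` means `|1 - 1/s| ≤ 1`. -/
lemma norm_one_sub_inv {s : ℂ} (hs : s ≠ 0) : ‖1 - 1 / s‖ ^ 2 = 1 - (2 * s.re - 1) / ‖s‖ ^ 2 := by
  have h0 : ‖s‖ ≠ 0 := norm_ne_zero_iff.2 hs
  have h1 : 1 - 1 / s = (s - 1) / s := by field_simp
  rw [h1, norm_div, div_pow, eq_sub_iff_add_eq, ← add_div, div_eq_one_iff_eq (pow_ne_zero _ h0)]
  rw [← Complex.normSq_eq_norm_sq, ← Complex.normSq_eq_norm_sq, Complex.normSq_apply,
    Complex.normSq_apply]
  simp
  ring

lemma norm_zz_le (a : ℂ) : ‖zz a‖ ≤ 1 := by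
  have h := norm_one_sub_inv (s_ne a)
  have h1 := sqrt_re a
  have h2 : (1 / 2 + a ^ (1 / 2 : ℂ) : ℂ).re = 1 / 2 + (a ^ (1 / 2 : ℂ)).re := by
    rw [Complex.add_re]; norm_num
  have h3 : 0 ≤ (2 * (1 / 2 + a ^ (1 / 2 : ℂ) : ℂ).re - 1) / ‖(1 / 2 + a ^ (1 / 2 : ℂ) : ℂ)‖ ^ 2 := by
    apply div_nonneg _ (sq_nonneg _)
    rw [h2]; linarith
  have h4 : ‖zz a‖ ^ 2 ≤ 1 := by
    unfold zz
    rw [h]; linarith
  nlinarith [norm_nonneg (zz a)]

/-- the contribution of the zeros -/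
noncomputable def ct (s : Multiset ℂ) (n : ℕ) : ℂ :=
  (s.map fun a => 2 - zz a ^ n - (zz a ^ n)⁻¹).sum

lemma tc_mult (s : Multiset ℂ) (h4 : ∀ a ∈ s, a ≠ 1 / 4) {g : ℂ → ℂ} (hg : AnalyticAt ℂ g 0)
    (hg0 : g 0 ≠ 0) (n : ℕ) :
    tc n (logDeriv fun w => (s.map fun a => xw w - a).prod * g w) =
      ct s (n + 1) + tc n (logDeriv g) := by
  induction s using Multiset.induction_on with
  | empty => simp [ct]
  | cons a s ih =>
    have ha := h4 a (Multiset.mem_cons_self a s)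
    have hs : ∀ b ∈ s, b ≠ 1 / 4 := fun b hb => h4 b (Multiset.mem_cons_of_mem hb)
    have han : ∀ t : Multiset ℂ, AnalyticAt ℂ (fun w => (t.map fun a => xw w - a).prod) 0 := by
      intro t
      induction t using Multiset.induction_on with
      | empty => simpa using analyticAt_const
      | cons b t iht =>
        simp only [Multiset.map_cons, Multiset.prod_cons]
        exact (analyticAt_xw.sub analyticAt_const).mul iht
    have hne : (s.map fun a => xw 0 - a).prod ≠ 0 := by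
      apply Multiset.prod_ne_zero
      intro h0
      obtain ⟨b, hb, hb0⟩ := Multiset.mem_map.1 h0
      apply hs b hb
      rw [xw_zero] at hb0
      exact (sub_eq_zero.1 hb0).symm
    have e : (fun w => ((a ::ₘ s).map fun a => xw w - a).prod * g w) = fun w => (xw w - a) *
        ((s.map fun a => xw w - a).prod * g w) := by
      funext w
      rw [Multiset.map_cons, Multiset.prod_cons, mul_assoc]
    have b1 : AnalyticAt ℂ (fun w => xw w - a) 0 := analyticAt_xw.sub analyticAt_const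
    have b2 : AnalyticAt ℂ (fun w => (s.map fun a => xw w - a).prod * g w) 0 := (han s).mul hg
    have b3 : xw 0 - a ≠ 0 := by
      rw [xw_zero]
      exact sub_ne_zero.2 (Ne.symm ha)
    rw [e, tc_logDeriv_mul b1 b2 b3 (mul_ne_zero hne hg0), ih hs,
      tc_factor (zz_ne_zero ha) (zz_ne_one a) (xw_zz a)]
    simp only [ct, Multiset.map_cons, Multiset.sum_cons]
    ring

/-- the coefficients of a product of a polynomial and a function -/
lemma tc_poly {P : ℂ[X]} (hP : P.eval (1 / 4) ≠ 0) {g : ℂ → ℂ} (hg : AnalyticAt ℂ g 0)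
    (hg0 : g 0 ≠ 0) (n : ℕ) :
    tc n (logDeriv fun w => P.eval (xw w) * g w) = ct P.roots (n + 1) + tc n (logDeriv g) := by
  have hP0 : P ≠ 0 := by rintro rfl; simp at hP
  have hs := IsAlgClosed.splits P
  have hl : P.leadingCoeff ≠ 0 := leadingCoeff_ne_zero.2 hP0
  have h4 : ∀ a ∈ P.roots, a ≠ 1 / 4 := by
    intro a ha h
    apply hP
    rw [← h]
    exact (mem_roots hP0).1 ha
  have e : (fun w => P.eval (xw w) * g w) = fun w => (P.roots.map fun a => xw w - a).prod *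
      (P.leadingCoeff * g w) := by
    funext w
    have h := hs.eval_eq_prod_roots (xw w)
    rw [h]
    ring
  have b1 : AnalyticAt ℂ (fun w => P.leadingCoeff * g w) 0 := analyticAt_const.mul hg
  rw [e, tc_mult _ h4 b1 (mul_ne_zero hl hg0)]
  congr 1
  have h5 := tc_logDeriv_mul (f := fun _ => P.leadingCoeff) analyticAt_const hg hl hg0 n
  rw [h5, tc_logDeriv_const, zero_add]

end Pool.Agent.X305.Li
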