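import Pool.Agent.X305.Li.Neg

/-!
# Sets which are not sets of Bohr recurrence: a polynomial
-/

set_option autoImplicit false

namespace Pool.Agent.X305.Li

open Complex Filter Topology Polynomial Metric

lemma tc_logDeriv_pow {g : ℂ → ℂ} (hg : AnalyticAt ℂ g 0) (h0 : g 0 ≠ 0) (m n : ℕ) :
    tc n (logDeriv fun w => g w ^ m) = m * tc n (logDeriv g) := by
  induction m with
  | zero => simp only [pow_zero, tc_logDeriv_const]; simp
  | succ m ih =>
    simp only [pow_succ]
    have h1 : AnalyticAt ℂ (fun w => g w ^ m) 0 := hg.pow m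
    rw [tc_logDeriv_mul h1 hg (pow_ne_zero _ h0) h0, ih]
    push_cast
    ring

lemma tc_logDeriv_prod {ι : Type} (s : Finset ι) (g : ι → ℂ → ℂ)
    (hg : ∀ i, AnalyticAt ℂ (g i) 0) (h0 : ∀ i, g i 0 ≠ 0) (n : ℕ) :
    tc n (logDeriv fun w => ∏ i ∈ s, g i w) = ∑ i ∈ s, tc n (logDeriv (g i)) := by
  classical
  have han : ∀ t : Finset ι, AnalyticAt ℂ (fun w => ∏ i ∈ t, g i w) 0 := by
    intro t
    induction t using Finset.induction_on with
    | empty => simpa using analyticAt_const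
    | insert a t ha ih =>
      simp only [Finset.prod_insert ha]
      exact (hg a).mul ih
  induction s using Finset.induction_on with
  | empty => simp only [Finset.prod_empty, Finset.sum_empty, tc_logDeriv_const]
  | insert a t ha ih =>
    simp only [Finset.prod_insert ha, Finset.sum_insert ha]
    rw [tc_logDeriv_mul (hg a) (han t) (h0 a) (Finset.prod_ne_zero_iff.2 fun i _ => h0 i), ih]

/-- The real polynomial with the roots `a` and `conj a`. -/
noncomputable def qd (a : ℂ) : ℝ[X] := X ^ 2 - C (2 * a.re) * X + C (Complex.normSq a)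

lemma aeval_qd (a x : ℂ) : aeval x (qd a) = (x - a) * (x - (starRingEnd ℂ) a) := by
  have e1 : ((Complex.normSq a : ℝ) : ℂ) = a * (starRingEnd ℂ) a := (Complex.mul_conj a).symm
  have e2 : (2 : ℂ) * ((a.re : ℝ) : ℂ) = a + (starRingEnd ℂ) a := by
    rw [Complex.add_conj]
    push_cast
    ring
  unfold qd
  simp only [map_add, map_sub, map_mul, map_pow, aeval_X, aeval_C, Complex.coe_algebraMap,
    Complex.ofReal_ofNat, e1, e2]
  ring

lemma xw_conj (z : ℂ) : xw ((starRingEnd ℂ) z) = (starRingEnd ℂ) (xw z) := by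
  have h2 : (starRingEnd ℂ) 2 = 2 := map_ofNat _ 2
  unfold xw
  rw [map_pow, map_sub, map_div₀, map_div₀, map_sub, map_one, h2]

/-- the coefficients for one quadratic factor -/
lemma tc_qd {z : ℂ} (hz0 : z ≠ 0) (hz1 : ‖z‖ < 1) (n : ℕ) :
    (tc n (logDeriv fun w => aeval (xw w) (qd (xw z)))).re =
      2 * (2 - z ^ (n + 1) - (z ^ (n + 1))⁻¹).re := by
  have h1 : z ≠ 1 := by
    rintro rfl
    rw [norm_one] at hz1
    exact lt_irrefl _ hz1
  have h2 : (starRingEnd ℂ) z ≠ 0 := (_root_.map_ne_zero _).2 hz0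
  have h3 : (starRingEnd ℂ) z ≠ 1 := by
    intro h
    apply h1
    have := congrArg (starRingEnd ℂ) h
    simpa using this
  have e : (fun w => aeval (xw w) (qd (xw z))) = fun w => (xw w - xw z) *
      (xw w - (starRingEnd ℂ) (xw z)) := by
    funext w
    rw [aeval_qd]
  have hx : ∀ a, a ≠ 1 / 4 → xw 0 - a ≠ 0 := by
    intro a ha
    rw [xw_zero]
    exact sub_ne_zero.2 (Ne.symm ha)
  have hx4 : ∀ y : ℂ, ‖y‖ < 1 → y ≠ 0 → xw y ≠ 1 / 4 := by
    intro y hy hy0 h
    apply hy0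
    rw [← xw_zero] at h
    exact xw_inj hy (by simp) (by norm_num) h
  have a1 : AnalyticAt ℂ (fun w => xw w - xw z) 0 := analyticAt_xw.sub analyticAt_const
  have a2 : AnalyticAt ℂ (fun w => xw w - (starRingEnd ℂ) (xw z)) 0 :=
    analyticAt_xw.sub analyticAt_const
  have h5 : (starRingEnd ℂ) (xw z) ≠ 1 / 4 := by
    rw [← xw_conj]
    exact hx4 _ (by rwa [RCLike.norm_conj]) h2
  rw [e, tc_logDeriv_mul a1 a2 (hx _ (hx4 z hz1 hz0)) (hx _ h5), tc_factor hz0 h1 rfl,
    tc_factor h2 h3 (xw_conj z)]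
  have e3 : 2 - (starRingEnd ℂ) z ^ (n + 1) - ((starRingEnd ℂ) z ^ (n + 1))⁻¹ =
      (starRingEnd ℂ) (2 - z ^ (n + 1) - (z ^ (n + 1))⁻¹) := by
    have h2 : (starRingEnd ℂ) 2 = 2 := map_ofNat _ 2
    rw [map_sub, map_sub, map_pow, map_inv₀, map_pow, h2]
  rw [e3, Complex.add_re, Complex.conj_re]
  ring

/-- the point of the circle of radius `1/2` with the frequency `f` -/
noncomputable def pt (f : ℝ) : ℂ := (1 / 2 : ℝ) * cexp ((2 * Real.pi * f : ℝ) * I)

lemma norm_pt (f : ℝ) : ‖pt f‖ = 1 / 2 := by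
  unfold pt
  rw [norm_mul, Complex.norm_exp_ofReal_mul_I, Complex.norm_real]
  norm_num

lemma pt_term (f : ℝ) (n : ℕ) : (2 - pt f ^ n - (pt f ^ n)⁻¹).re =
    2 - ((1 / 2) ^ n + 2 ^ n) * Real.cos (2 * Real.pi * (n * f)) := by
  have e1 : pt f ^ n = (((1 / 2) ^ n : ℝ) : ℂ) * cexp ((2 * Real.pi * (n * f) : ℝ) * I) := by
    unfold pt
    rw [mul_pow, ← Complex.exp_nat_mul]
    push_cast
    ring_nf
  have e2 : (pt f ^ n)⁻¹ = ((2 ^ n : ℝ) : ℂ) * cexp ((-(2 * Real.pi * (n * f)) : ℝ) * I) := by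
    rw [e1, mul_inv, ← Complex.exp_neg]
    push_cast
    rw [one_div, inv_pow, inv_inv]
    ring_nf
  rw [Complex.sub_re, Complex.sub_re, e2, e1, Complex.re_ofReal_mul, Complex.re_ofReal_mul,
    Complex.exp_ofReal_mul_I_re, Complex.exp_ofReal_mul_I_re, Real.cos_neg]
  norm_num
  ring

/-- a power of the cosine as a trigonometric polynomial with positive coefficients -/
lemma binom_sum (L : ℕ) (y : ℝ) : ∑ l : Fin (2 * L + 1), ((2 * L).choose l : ℂ) *
    cexp (((y * ((l : ℝ) - L) : ℝ) : ℂ) * I) = (((2 * Real.cos (y / 2)) ^ (2 * L) : ℝ) : ℂ) := by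
  have h1 : (((2 * Real.cos (y / 2)) : ℝ) : ℂ) = cexp ((y / 2 : ℝ) * I) + cexp ((-(y / 2) : ℝ) * I) := by
    push_cast
    rw [Complex.cos]
    ring_nf
  rw [Complex.ofReal_pow, h1, add_pow, Finset.sum_range]
  refine Finset.sum_congr rfl fun l _ => ?_
  rw [← Complex.exp_nat_mul, ← Complex.exp_nat_mul, ← Complex.exp_add, mul_comm]
  congr 2
  have hl : (l : ℕ) ≤ 2 * L := Nat.lt_succ_iff.1 l.2
  rw [Nat.cast_sub hl]
  push_cast
  ring

lemma cos_le {t ε : ℝ} (hε0 : 0 ≤ ε) (h : ε ≤ |t - round t|) :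
    Real.cos (Real.pi * t) ^ 2 ≤ Real.cos (Real.pi * ε) ^ 2 := by
  have hpi := Real.pi_pos
  have h1 := abs_sub_round t
  have e : Real.cos (Real.pi * t) ^ 2 = Real.cos (Real.pi * |t - round t|) ^ 2 := by
    have e1 : Real.pi * t = Real.pi * (t - round t) + (round t : ℤ) * Real.pi := by ring
    have e2 : Real.cos (Real.pi * |t - round t|) = Real.cos (Real.pi * (t - round t)) := by
      rw [← Real.cos_abs (Real.pi * (t - round t)), abs_mul, abs_of_pos hpi]
    rw [e1, Real.cos_add_int_mul_pi, e2, mul_pow]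
    have e3 : (((-1 : ℝ)) ^ (round t)) ^ 2 = 1 := by
      rw [← zpow_natCast, ← zpow_mul, mul_comm, zpow_mul]
      simp
    rw [e3, one_mul]
  rw [e]
  have h2 : 0 ≤ Real.cos (Real.pi * |t - round t|) :=
    Real.cos_nonneg_of_mem_Icc ⟨by nlinarith [abs_nonneg (t - round t)], by nlinarith⟩
  have h3 : Real.cos (Real.pi * |t - round t|) ≤ Real.cos (Real.pi * ε) :=
    Real.cos_le_cos_of_nonneg_of_le_pi (by positivity) (by nlinarith) (by nlinarith)
  exact pow_le_pow_left₀ h2 h3 2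

/-- **If `S` is not a set of Bohr recurrence there is a polynomial with zeros off the line and
nonnegative Li coefficients along `S`.** -/
theorem sharp {S : Set ℕ} (hS : ¬ BohrRec S) : ∃ P : ℝ[X], aeval (1 / 4 : ℂ) P ≠ 0 ∧
    (∀ n ∈ S, 0 < n → 0 ≤ lf (fun x => aeval x P) n) ∧ ∃ z : ℂ, ‖z‖ < 1 ∧ aeval (xw z) P = 0 := by
  classical
  unfold BohrRec at hS
  push Not at hS
  obtain ⟨k, θ0, ε0, hε0, h0⟩ := hS
  set ε : ℝ := min ε0 (1 / 2) with hε
  have hεpos : 0 < ε := lt_min hε0 (by norm_num)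
  have hε2 : ε ≤ 1 / 2 := min_le_right _ _
  set θ : Fin (k + 1) → ℝ := Fin.cons 0 θ0 with hθ
  have h : ∀ n ∈ S, 0 < n → ∃ j, ε ≤ |n * θ j - round (n * θ j)| := by
    intro n hn hn0
    obtain ⟨j, hj⟩ := h0 n hn hn0
    refine ⟨j.succ, ?_⟩
    rw [hθ, Fin.cons_succ]
    exact (min_le_left _ _).trans hj
  have hpi := Real.pi_pos
  set c : ℝ := Real.cos (Real.pi * ε) ^ 2 with hc
  have hc0 : 0 ≤ c := sq_nonneg _
  have hc1 : c < 1 := by
    have h1 : 0 < Real.sin (Real.pi * ε) :=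
      Real.sin_pos_of_pos_of_lt_pi (by positivity) (by nlinarith)
    have h2 := Real.sin_sq_add_cos_sq (Real.pi * ε)
    rw [hc]
    nlinarith
  obtain ⟨L, hL1, hL⟩ : ∃ L : ℕ, 1 ≤ L ∧ (2 * (L : ℝ)) ^ (k + 1) * c ^ L ≤ 1 := by
    have h1 := (tendsto_pow_const_mul_const_pow_of_abs_lt_one (k + 1)
      (by rwa [abs_of_nonneg hc0] : |c| < 1)).const_mul ((2 : ℝ) ^ (k + 1))
    rw [mul_zero] at h1
    obtain ⟨L, hL, hL1⟩ := ((h1.eventually (gt_mem_nhds one_pos)).and (eventually_ge_atTop 1)).exists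
    refine ⟨L, hL1, ?_⟩
    rw [mul_pow, mul_assoc]
    exact hL.le
  let Φ : Type := Fin (k + 1) → Fin (2 * L + 1)
  let mid : Φ := fun _ => ⟨L, by omega⟩
  let b : Φ → ℕ := fun φ => ∏ j, (2 * L).choose (φ j)
  let m : Φ → ℕ := fun φ => if φ = mid then 0 else b φ
  let f : Φ → ℝ := fun φ => ∑ j, ((φ j : ℝ) - L) * θ j
  let P : ℝ[X] := ∏ φ : Φ, qd (xw (pt (f φ))) ^ m φ
  have hpt1 : ∀ t, ‖pt t‖ < 1 := fun t => by rw [norm_pt]; norm_num
  have hpt0 : ∀ t, pt t ≠ 0 := fun t h => by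
    have := norm_pt t
    rw [h, norm_zero] at this
    norm_num at this
  have hx4 : ∀ t : ℝ, xw (pt t) ≠ 1 / 4 := by
    intro t h
    apply hpt0 t
    rw [← xw_zero] at h
    exact xw_inj (hpt1 t) (by simp) (by norm_num) h
  have hq0 : ∀ t, aeval (xw 0) (qd (xw (pt t))) ≠ 0 := by
    intro t
    rw [aeval_qd, xw_zero]
    refine mul_ne_zero (sub_ne_zero.2 (Ne.symm (hx4 t))) (sub_ne_zero.2 fun h => hx4 t ?_)
    have h2 := congrArg (starRingEnd ℂ) h
    rw [Complex.conj_conj] at h2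
    rw [← h2]
    have h3 : (starRingEnd ℂ) 4 = 4 := map_ofNat _ 4
    rw [map_div₀, map_one, h3]
  have haev : ∀ x : ℂ, aeval x P = ∏ φ : Φ, (aeval x (qd (xw (pt (f φ))))) ^ m φ := by
    intro x
    simp only [P, map_prod, map_pow]
  refine ⟨P, ?_, ?_, ?_⟩
  · rw [haev]
    refine Finset.prod_ne_zero_iff.2 fun φ _ => pow_ne_zero _ ?_
    have := hq0 (f φ)
    rwa [xw_zero] at this
  · intro n hn hn0
    have hanq : ∀ t, AnalyticAt ℂ (fun w => aeval (xw w) (qd (xw (pt t)))) 0 := by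
      intro t
      simp only [aeval_qd]
      exact (analyticAt_xw.sub analyticAt_const).mul (analyticAt_xw.sub analyticAt_const)
    -- the coefficient
    have e1 : lf (fun x => aeval x P) n = ∑ φ : Φ, (m φ : ℝ) * (2 * (2 - ((1 / 2) ^ n + 2 ^ n) *
        Real.cos (2 * Real.pi * (n * f φ)))) := by
      unfold lf
      have e2 : (fun w => aeval (xw w) P) = fun w => ∏ φ : Φ,
          (aeval (xw w) (qd (xw (pt (f φ))))) ^ m φ := by
        funext w
        exact haev _
      have e20 := tc_logDeriv_prod (Finset.univ : Finset Φ)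
        (fun φ w => (aeval (xw w) (qd (xw (pt (f φ))))) ^ m φ) (fun φ => (hanq _).pow _)
        (fun φ => pow_ne_zero _ (hq0 _)) (n - 1)
      rw [e2, e20, Complex.re_sum]
      refine Finset.sum_congr rfl fun φ _ => ?_
      have e3 := tc_logDeriv_pow (hanq (f φ)) (hq0 (f φ)) (m φ) (n - 1)
      rw [e3, ← Complex.ofReal_natCast, Complex.re_ofReal_mul, tc_qd (hpt0 _) (hpt1 _),
        Nat.sub_add_cancel hn0, pt_term]
    -- the sum of the cosines
    have e4 : ∑ φ : Φ, (m φ : ℝ) * Real.cos (2 * Real.pi * (n * f φ)) =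
        ∏ j, (2 * Real.cos (Real.pi * (n * θ j))) ^ (2 * L) - ((2 * L).choose L : ℝ) ^ (k + 1) := by
      have e5 : ∏ j, (2 * Real.cos (Real.pi * (n * θ j))) ^ (2 * L) =
          ∑ φ : Φ, (b φ : ℝ) * Real.cos (2 * Real.pi * (n * f φ)) := by
        have e6 : (((∏ j, (2 * Real.cos (Real.pi * (n * θ j))) ^ (2 * L) : ℝ)) : ℂ) =
            ∑ φ : Φ, (b φ : ℂ) * cexp ((2 * Real.pi * (n * f φ) : ℝ) * I) := by
          rw [Complex.ofReal_prod]
          have e7 : ∀ j, (((2 * Real.cos (Real.pi * (n * θ j))) ^ (2 * L) : ℝ) : ℂ) =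
              ∑ l : Fin (2 * L + 1), ((2 * L).choose l : ℂ) *
                cexp (((2 * Real.pi * (n * θ j) * ((l : ℝ) - L) : ℝ) : ℂ) * I) := by
            intro j
            rw [binom_sum]
            congr 4
            ring
          simp only [e7]
          rw [Finset.prod_univ_sum, Fintype.piFinset_univ]
          refine Finset.sum_congr rfl fun φ _ => ?_
          rw [Finset.prod_mul_distrib, ← Complex.exp_sum, ← Finset.sum_mul, ← Complex.ofReal_sum]
          simp only [b, f]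
          push_cast
          congr 3
          rw [Finset.mul_sum, Finset.mul_sum]
          refine Finset.sum_congr rfl fun j _ => ?_
          ring
        have e8 := congrArg Complex.re e6
        rw [Complex.ofReal_re, Complex.re_sum] at e8
        rw [e8]
        refine Finset.sum_congr rfl fun φ _ => ?_
        rw [← Complex.ofReal_natCast, Complex.re_ofReal_mul, Complex.exp_ofReal_mul_I_re]
      rw [e5, eq_sub_iff_add_eq]
      rw [← Finset.add_sum_erase _ _ (Finset.mem_univ mid), ← Finset.add_sum_erase _ _ (Finset.mem_univ mid)]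
      have e9 : (m mid : ℝ) = 0 := by simp [m]
      have e10 : (b mid : ℝ) = ((2 * L).choose L : ℝ) ^ (k + 1) := by
        simp [b, mid]
      have e11 : f mid = 0 := by simp [f, mid]
      rw [e9, e10, e11, mul_zero, mul_zero, Real.cos_zero, zero_mul, zero_add, mul_one, add_comm]
      congr 1
      refine Finset.sum_congr rfl fun φ hφ => ?_
      simp only [m, if_neg (Finset.ne_of_mem_erase hφ)]
    -- the bound
    have e12 : ∏ j, (2 * Real.cos (Real.pi * (n * θ j))) ^ (2 * L) ≤ ((2 * L).choose L : ℝ) ^ (k + 1) := by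
      obtain ⟨j0, hj0⟩ := h n hn hn0
      have h1 : ∏ j, (2 * Real.cos (Real.pi * (n * θ j))) ^ (2 * L) ≤
          ∏ j : Fin (k + 1), (4 ^ L * (if j = j0 then c ^ L else 1) : ℝ) := by
        refine Finset.prod_le_prod (fun j _ => by rw [pow_mul]; positivity) fun j _ => ?_
        have e13 : (2 * Real.cos (Real.pi * (n * θ j))) ^ (2 * L) =
            4 ^ L * (Real.cos (Real.pi * (n * θ j)) ^ 2) ^ L := by
          rw [pow_mul, mul_pow, mul_pow]; norm_num
        rw [e13]
        refine mul_le_mul_of_nonneg_left ?_ (by positivity)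
        split_ifs with hj
        · rw [hj]
          exact pow_le_pow_left₀ (sq_nonneg _) (cos_le hεpos.le hj0) L
        · exact pow_le_one₀ (sq_nonneg _) (Real.cos_sq_le_one _)
      refine h1.trans ?_
      rw [Finset.prod_mul_distrib, Finset.prod_const, Finset.prod_ite_eq' Finset.univ j0,
        if_pos (Finset.mem_univ _), Finset.card_univ, Fintype.card_fin]
      have h2 : (4 : ℝ) ^ L ≤ 2 * L * ((2 * L).choose L : ℝ) := by
        have := Nat.four_pow_le_two_mul_self_mul_centralBinom L (by omega)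
        rw [Nat.centralBinom_eq_two_mul_choose] at this
        exact_mod_cast this
      calc ((4 : ℝ) ^ L) ^ (k + 1) * c ^ L ≤ (2 * L * ((2 * L).choose L : ℝ)) ^ (k + 1) * c ^ L := by
            gcongr
        _ = ((2 * (L : ℝ)) ^ (k + 1) * c ^ L) * ((2 * L).choose L : ℝ) ^ (k + 1) := by
            rw [mul_pow]; ring
        _ ≤ 1 * ((2 * L).choose L : ℝ) ^ (k + 1) := by gcongr
        _ = _ := one_mul _
    rw [e1]
    have e14 : ∑ φ : Φ, (m φ : ℝ) * (2 * (2 - ((1 / 2) ^ n + 2 ^ n) *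
        Real.cos (2 * Real.pi * (n * f φ)))) = 4 * ∑ φ : Φ, (m φ : ℝ) -
          2 * ((1 / 2) ^ n + 2 ^ n) * ∑ φ : Φ, (m φ : ℝ) * Real.cos (2 * Real.pi * (n * f φ)) := by
      rw [Finset.mul_sum, Finset.mul_sum, ← Finset.sum_sub_distrib]
      refine Finset.sum_congr rfl fun φ _ => ?_
      ring
    rw [e14, e4]
    have h3 : 0 ≤ ∑ φ : Φ, (m φ : ℝ) := Finset.sum_nonneg fun φ _ => Nat.cast_nonneg _
    have h4 : (0 : ℝ) ≤ 2 * ((1 / 2) ^ n + 2 ^ n) := by positivity
    nlinarith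
  · let φ0 : Φ := fun _ => ⟨0, by omega⟩
    refine ⟨pt (f φ0), hpt1 _, ?_⟩
    rw [haev]
    refine Finset.prod_eq_zero (Finset.mem_univ φ0) ?_
    have h1 : φ0 ≠ mid := by
      intro h
      have := congrFun h 0
      simp only [φ0, mid, Fin.mk.injEq] at this
      omega
    have h2 : m φ0 = 1 := by
      simp only [m, if_neg h1, b, φ0]
      simp
    rw [h2, pow_one, aeval_qd, sub_self, zero_mul]

end Pool.Agent.X305.Li
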