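import Pool.Agent.X305.Li.Pos
import Pool.Agent.X305.Li.Sharp

/-!
# Li's criterion along sets of Bohr recurrence, for general completed L-functions
-/

set_option autoImplicit false

namespace Pool.Agent.X305.Li

open Complex Filter Topology Polynomial Metric

/-- The Li coefficient `λ_n(a)` of `Λ` for the centre `c`. -/
noncomputable def lic (Λ : ℂ → ℂ) (c a : ℝ) (n : ℕ) : ℝ :=
  (iteratedDeriv (n - 1) (logDeriv fun z => Λ (c + a * ((1 + z) / (1 - z)))) 0 /
    ((n - 1).factorial : ℂ)).re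

/-- factor out the zero at the origin -/
lemma exists_factor {F : ℂ → ℂ} (hF : Differentiable ℂ F) (hne : ∃ x, F x ≠ 0)
    (hconj : ∀ x, F ((starRingEnd ℂ) x) = (starRingEnd ℂ) (F x)) {K : ℝ}
    (hK : ∀ x, ‖F x‖ ≤ Real.exp (K * (1 + ‖x‖) ^ (3 / 4 : ℝ))) :
    ∃ (m : ℕ) (G : ℂ → ℂ), Differentiable ℂ G ∧ G 0 ≠ 0 ∧ (∀ x, F x = x ^ m * G x) ∧
      (∀ x, G ((starRingEnd ℂ) x) = (starRingEnd ℂ) (G x)) ∧
      ∃ K' : ℝ, ∀ x, ‖G x‖ ≤ Real.exp (K' * (1 + ‖x‖) ^ (3 / 4 : ℝ)) := by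
  have han : AnalyticAt ℂ F 0 := hF.analyticAt 0
  have hnt : ¬ ∀ᶠ z in 𝓝 (0 : ℂ), F z = 0 := by
    intro h
    obtain ⟨x, hx⟩ := hne
    have h1 : AnalyticOnNhd ℂ F Set.univ := fun z _ => hF.analyticAt z
    have h2 := h1.eqOn_zero_of_preconnected_of_eventuallyEq_zero isPreconnected_univ
      (Set.mem_univ (0 : ℂ)) h
    exact hx (h2 (Set.mem_univ x))
  obtain ⟨m, g, hg, hg0, hFg⟩ := han.exists_eventuallyEq_pow_smul_nonzero_iff.2 hnt
  simp only [sub_zero, smul_eq_mul] at hFg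
  set G : ℂ → ℂ := fun x => if x = 0 then g 0 else F x / x ^ m with hG
  have hGg : ∀ᶠ z in 𝓝 (0 : ℂ), G z = g z := by
    filter_upwards [hFg] with z hz
    by_cases h0 : z = 0
    · rw [hG]; simp only [h0, if_true]
    · rw [hG]; simp only [h0, if_false]
      rw [hz]
      field_simp
  have hGd : Differentiable ℂ G := by
    intro x
    by_cases h0 : x = 0
    · subst h0
      exact (hg.differentiableAt.congr_of_eventuallyEq hGg)
    · have h1 : ∀ᶠ z in 𝓝 x, G z = F z / z ^ m := by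
        filter_upwards [isOpen_ne.mem_nhds h0] with z hz
        rw [hG]; simp only [show z ≠ 0 from hz, if_false]
      refine DifferentiableAt.congr_of_eventuallyEq ?_ h1
      exact (hF x).div ((differentiable_id.pow m) x) (pow_ne_zero m h0)
  have hG0 : G 0 = g 0 := by rw [hG]; simp
  have hfac : ∀ x, F x = x ^ m * G x := by
    intro x
    by_cases h0 : x = 0
    · subst h0
      rw [hG0]
      exact hFg.self_of_nhds
    · rw [hG]; simp only [h0, if_false]
      field_simp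
  refine ⟨m, G, hGd, by rwa [hG0], hfac, ?_, ?_⟩
  · have h1 : Continuous fun x : ℂ => G ((starRingEnd ℂ) x) := hGd.continuous.comp continuous_conj
    have h2 : Continuous fun x : ℂ => (starRingEnd ℂ) (G x) := continuous_conj.comp hGd.continuous
    have h3 : (fun x : ℂ => G ((starRingEnd ℂ) x)) = fun x : ℂ => (starRingEnd ℂ) (G x) := by
      refine Continuous.ext_on (dense_compl_singleton (0 : ℂ)) h1 h2 ?_
      intro x hx
      have hx0 : x ≠ 0 := hx
      have hx1 : (starRingEnd ℂ) x ≠ 0 := (_root_.map_ne_zero _).2 hx0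
      show G ((starRingEnd ℂ) x) = (starRingEnd ℂ) (G x)
      have e1 := hfac ((starRingEnd ℂ) x)
      rw [hconj, hfac x, map_mul, map_pow] at e1
      exact (mul_left_cancel₀ (pow_ne_zero m hx1) e1).symm
    exact fun x => congrFun h3 x
  · obtain ⟨M, hM⟩ := (isCompact_closedBall (0 : ℂ) 1).exists_bound_of_continuousOn
      hGd.continuous.continuousOn
    refine ⟨max K 0 + |M|, fun x => ?_⟩
    have hb : 1 ≤ (1 + ‖x‖) ^ (3 / 4 : ℝ) :=
      Real.one_le_rpow (by linarith [norm_nonneg x]) (by norm_num)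
    have hK0 : 0 ≤ max K 0 := le_max_right _ _
    rcases le_total ‖x‖ 1 with h | h
    · refine (hM x (mem_closedBall_zero_iff.2 h)).trans ?_
      have h1 : M ≤ (max K 0 + |M|) * (1 + ‖x‖) ^ (3 / 4 : ℝ) := by
        have h2 := le_abs_self M
        have h3 := abs_nonneg M
        nlinarith
      exact h1.trans ((by linarith [Real.add_one_le_exp ((max K 0 + |M|) * (1 + ‖x‖) ^ (3 / 4 : ℝ))]))
    · have hx0 : x ≠ 0 := by
        rintro rfl
        rw [norm_zero] at h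
        linarith
      have h1 : ‖G x‖ ≤ ‖F x‖ := by
        rw [hfac x, norm_mul, norm_pow]
        exact le_mul_of_one_le_left (norm_nonneg _) (one_le_pow₀ h)
      refine h1.trans ((hK x).trans (Real.exp_le_exp.2 ?_))
      have h2 := le_max_left K 0
      have h3 := abs_nonneg M
      nlinarith

/-- the coefficients of the factor `(1 + z) / (1 - z)` -/
lemma tc_cayley {a : ℝ} (ha : 0 < a) (n : ℕ) :
    tc n (logDeriv fun z : ℂ => (a : ℂ) * ((1 + z) / (1 - z))) = 1 + (-1) ^ n := by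
  have ha0 : (a : ℂ) ≠ 0 := by exact_mod_cast ha.ne'
  have h1 : ∀ᶠ z in 𝓝 (0 : ℂ), (1 : ℂ) + z ≠ 0 ∧ (1 : ℂ) - z ≠ 0 := by
    have h2 : ∀ᶠ z in 𝓝 (0 : ℂ), z ∈ ball (0 : ℂ) 1 := ball_mem_nhds _ one_pos
    filter_upwards [h2] with z hz
    rw [mem_ball_zero_iff] at hz
    constructor
    · intro h
      have : z = -1 := by linear_combination h
      rw [this, norm_neg, norm_one] at hz
      exact lt_irrefl _ hz
    · intro h
      have : z = 1 := by linear_combination -h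
      rw [this, norm_one] at hz
      exact lt_irrefl _ hz
  have e : (logDeriv fun z : ℂ => (a : ℂ) * ((1 + z) / (1 - z))) =ᶠ[𝓝 0]
      fun z => (1 - 1 * z)⁻¹ + (1 - (-1) * z)⁻¹ := by
    filter_upwards [h1] with z ⟨hz1, hz2⟩
    rw [logDeriv_const_mul z _ ha0, logDeriv_div z hz1 hz2 (by fun_prop) (by fun_prop)]
    have d1 : logDeriv (fun z : ℂ => 1 + z) z = 1 / (1 + z) := by
      rw [logDeriv_apply]
      congr 1
      have h := (hasDerivAt_id z).const_add (1 : ℂ)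
      exact h.deriv
    have d2 : logDeriv (fun z : ℂ => 1 - z) z = -1 / (1 - z) := by
      rw [logDeriv_apply]
      congr 1
      have h := (hasDerivAt_id z).const_sub (1 : ℂ)
      exact h.deriv
    rw [d1, d2, one_mul, neg_one_mul, sub_neg_eq_add]
    field_simp
    ring
  rw [tc_congr e, tc_add (by
      refine AnalyticAt.inv (by fun_prop) ?_
      norm_num) (by
      refine AnalyticAt.inv (by fun_prop) ?_
      norm_num), tc_geom, tc_geom, one_pow]


/-- The hypotheses on a completed L-function. -/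
structure Completed (Λ : ℂ → ℂ) (c : ℝ) (F : ℂ → ℂ) (r : ℕ) : Prop where
  diff : Differentiable ℂ F
  ne : ∃ x, F x ≠ 0
  conj : ∀ x, F ((starRingEnd ℂ) x) = (starRingEnd ℂ) (F x)
  grow : ∃ K : ℝ, ∀ x, ‖F x‖ ≤ Real.exp (K * (1 + ‖x‖) ^ (3 / 4 : ℝ))
  eq : ∀ z, Λ (c + z) = z ^ r * F (z ^ 2)

lemma cay_sq {z : ℂ} (hz : z ≠ 1) (a : ℂ) : (a * ((1 + z) / (1 - z))) ^ 2 = 4 * a ^ 2 * xw z := by
  have h : (1 : ℂ) - z ≠ 0 := sub_ne_zero.2 (Ne.symm hz)
  unfold xw
  field_simp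
  ring

/-- The coefficients in terms of the function without zero at the centre. -/
lemma lic_eq {Λ : ℂ → ℂ} {c : ℝ} {F G : ℂ → ℂ} {r m : ℕ} (h : Completed Λ c F r)
    (hG : Differentiable ℂ G) (hFG : ∀ x, F x = x ^ m * G x) {a : ℝ} (ha : 0 < a)
    (hΛ : Λ (c + a) ≠ 0) (n : ℕ) :
    lic Λ c a n = ((r + 2 * m : ℕ) : ℝ) * (1 + (-1) ^ (n - 1)) + lf (fun x => G (4 * a ^ 2 * x)) n := by
  have ha0 : (a : ℂ) ≠ 0 := by exact_mod_cast ha.ne'
  have hGa : G ((a : ℂ) ^ 2) ≠ 0 := by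
    intro h0
    apply hΛ
    rw [h.eq, hFG, h0, mul_zero, mul_zero]
  have hcay : AnalyticAt ℂ (fun z : ℂ => (a : ℂ) * ((1 + z) / (1 - z))) 0 := by
    refine analyticAt_const.mul ((by fun_prop : AnalyticAt ℂ (fun z : ℂ => 1 + z) 0).div
      (by fun_prop) ?_)
    norm_num
  have hcay0 : (fun z : ℂ => (a : ℂ) * ((1 + z) / (1 - z))) 0 ≠ 0 := by
    simpa using ha0
  have hGx : AnalyticAt ℂ (fun w : ℂ => G (4 * (a : ℂ) ^ 2 * xw w)) 0 := by
    refine AnalyticAt.fun_comp (hG.analyticAt _) ?_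
    exact analyticAt_const.mul analyticAt_xw
  have hGx0 : (fun w : ℂ => G (4 * (a : ℂ) ^ 2 * xw w)) 0 ≠ 0 := by
    show G (4 * (a : ℂ) ^ 2 * xw 0) ≠ 0
    rw [xw_zero, show 4 * (a : ℂ) ^ 2 * (1 / 4) = (a : ℂ) ^ 2 by ring]
    exact hGa
  have e : (fun z : ℂ => Λ (c + a * ((1 + z) / (1 - z)))) =ᶠ[𝓝 0]
      fun z => ((a : ℂ) * ((1 + z) / (1 - z))) ^ (r + 2 * m) * G (4 * (a : ℂ) ^ 2 * xw z) := by
    filter_upwards [isOpen_ne.mem_nhds (show (0 : ℂ) ≠ 1 by norm_num)] with z hz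
    rw [h.eq, hFG, cay_sq hz, pow_add, pow_mul, cay_sq hz]
    ring
  have e2 : (logDeriv fun z : ℂ => Λ (c + a * ((1 + z) / (1 - z)))) =ᶠ[𝓝 0]
      logDeriv fun z => ((a : ℂ) * ((1 + z) / (1 - z))) ^ (r + 2 * m) *
        G (4 * (a : ℂ) ^ 2 * xw z) := by
    filter_upwards [e.eventuallyEq_nhds] with z hz
    rw [logDeriv_apply, logDeriv_apply, hz.deriv_eq]
    exact congrArg _ hz.self_of_nhds
  have e3 : tc (n - 1) (logDeriv fun z : ℂ => Λ (c + a * ((1 + z) / (1 - z)))) =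
      ((r + 2 * m : ℕ) : ℂ) * (1 + (-1) ^ (n - 1)) +
        tc (n - 1) (logDeriv fun w : ℂ => G (4 * (a : ℂ) ^ 2 * xw w)) := by
    have h1 := tc_logDeriv_mul (hcay.pow (r + 2 * m)) hGx (pow_ne_zero _ hcay0) hGx0 (n - 1)
    have h2 := tc_logDeriv_pow hcay hcay0 (r + 2 * m) (n - 1)
    rw [tc_cayley ha] at h2
    rw [tc_congr e2]
    exact h1.trans (by rw [← h2]; rfl)
  unfold lic lf
  have e4 : (tc (n - 1) (logDeriv fun z : ℂ => Λ (c + a * ((1 + z) / (1 - z))))).re =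
      (((r + 2 * m : ℕ) : ℂ) * (1 + (-1) ^ (n - 1))).re +
        (tc (n - 1) (logDeriv fun w : ℂ => G (4 * (a : ℂ) ^ 2 * xw w))).re := by
    rw [e3, Complex.add_re]
  have e5 : (((r + 2 * m : ℕ) : ℂ) * (1 + (-1) ^ (n - 1))).re =
      ((r + 2 * m : ℕ) : ℝ) * (1 + (-1) ^ (n - 1)) := by
    rw [show ((r + 2 * m : ℕ) : ℂ) * (1 + (-1) ^ (n - 1)) =
      (((r + 2 * m : ℕ) : ℝ) * (1 + (-1) ^ (n - 1)) : ℝ) by push_cast; ring, Complex.ofReal_re]
  rw [e5] at e4
  exact e4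

lemma xw_div (z : ℂ) {a : ℝ} (ha : 0 < a) (hz : z + a ≠ 0) :
    4 * (a : ℂ) ^ 2 * xw ((z - a) / (z + a)) = z ^ 2 := by
  have ha0 : (a : ℂ) ≠ 0 := by exact_mod_cast ha.ne'
  have h1 : (z - a) / (z + a) ≠ 1 := by
    intro h
    rw [div_eq_one_iff_eq hz] at h
    apply ha0
    linear_combination -h / 2
  rw [← cay_sq h1]
  have h2 : (1 + (z - a) / (z + a)) / (1 - (z - a) / (z + a)) = z / a := by
    have h3 : (1 : ℂ) - (z - a) / (z + a) = 2 * a / (z + a) := by field_simp; ring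
    have h4 : (1 : ℂ) + (z - a) / (z + a) = 2 * z / (z + a) := by field_simp; ring
    rw [h3, h4]
    field_simp
  rw [h2]
  field_simp

lemma norm_cay_lt {z : ℂ} {a : ℝ} (ha : 0 < a) (hz : 0 < z.re) : ‖(z - a) / (z + a)‖ < 1 := by
  have h0 : z + a ≠ 0 := by
    intro h
    have := congrArg Complex.re h
    rw [Complex.add_re, Complex.ofReal_re, Complex.zero_re] at this
    linarith
  rw [norm_div, div_lt_one (norm_pos_iff.2 h0)]
  have h1 : ‖z - a‖ ^ 2 < ‖z + a‖ ^ 2 := by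
    rw [← Complex.normSq_eq_norm_sq, ← Complex.normSq_eq_norm_sq, Complex.normSq_apply,
      Complex.normSq_apply]
    simp only [Complex.sub_re, Complex.add_re, Complex.sub_im, Complex.add_im, Complex.ofReal_re,
      Complex.ofReal_im]
    nlinarith
  exact lt_of_pow_lt_pow_left₀ 2 (norm_nonneg _) h1

lemma abs_two_sgn (n : ℕ) : 0 ≤ 1 + (-1 : ℝ) ^ n ∧ 1 + (-1 : ℝ) ^ n ≤ 2 := by
  rcases neg_one_pow_eq_or ℝ n with h | h <;> rw [h] <;> norm_num

section Main

variable {Λ : ℂ → ℂ} {c : ℝ} {F : ℂ → ℂ} {r : ℕ} (h : Completed Λ c F r)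

include h

/-- the symmetry -/
lemma Completed.symm (z : ℂ) : Λ (c + -z) = (-1) ^ r * Λ (c + z) := by
  rw [h.eq, h.eq, neg_sq, neg_pow]
  ring

/-- the rank -/
lemma Completed.order {G : ℂ → ℂ} {m : ℕ} (hG : Differentiable ℂ G) (hG0 : G 0 ≠ 0)
    (hFG : ∀ x, F x = x ^ m * G x) : analyticOrderAt Λ c = ((r + 2 * m : ℕ) : ℕ∞) := by
  have hd : Differentiable ℂ fun s : ℂ => G ((s - c) ^ 2) :=
    hG.comp ((differentiable_id.sub_const _).pow 2)
  have e : ∀ s : ℂ, Λ s = (s - c) ^ (r + 2 * m) * G ((s - c) ^ 2) := by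
    intro s
    have h1 := h.eq (s - c)
    rw [add_sub_cancel, hFG] at h1
    rw [h1, pow_add, pow_mul]
    ring
  have hΛ : AnalyticAt ℂ Λ c := by
    have : Λ = fun s : ℂ => (s - c) ^ (r + 2 * m) * G ((s - c) ^ 2) := funext e
    rw [this]
    exact (((differentiable_id.sub_const _).pow _).mul hd).analyticAt _
  rw [hΛ.analyticOrderAt_eq_natCast]
  exact ⟨fun s => G ((s - c) ^ 2), hd.analyticAt _, by simpa using hG0,
    Eventually.of_forall fun s => by rw [smul_eq_mul]; exact e s⟩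

/-- **Positivity under the Riemann hypothesis**, with the contribution of the central zero. -/
theorem Completed.nonneg (hRH : ∀ s, Λ s = 0 → s.re = c) {a : ℝ} (ha : 0 < a) :
    ∃ R : ℕ, analyticOrderAt Λ c = (R : ℕ∞) ∧
      ∀ n : ℕ, (R : ℝ) * (1 + (-1) ^ (n - 1)) ≤ lic Λ c a n := by
  obtain ⟨K, hK⟩ := h.grow
  obtain ⟨m, G, hG, hG0, hFG, hGc, K', hK'⟩ := exists_factor h.diff h.ne h.conj hK
  have hΛ : Λ (c + a) ≠ 0 := by
    intro h0
    have h1 := hRH _ h0
    rw [Complex.add_re, Complex.ofReal_re, Complex.ofReal_re] at h1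
    linarith
  refine ⟨r + 2 * m, h.order hG hG0 hFG, fun n => ?_⟩
  rw [lic_eq h hG hFG ha hΛ]
  have key : 0 ≤ lf (fun x => G (4 * a ^ 2 * x)) n := by
    set A : ℝ := 4 * a ^ 2 with hA
    have hA0 : 0 < A := by positivity
    have hAc : (4 * (a : ℂ) ^ 2) = (A : ℂ) := by rw [hA]; push_cast; ring
    simp only [hAc]
    refine lf_nonneg (K := |K'| * (1 + A)) (hG.comp (differentiable_id.const_mul _)) ?_ ?_ ?_ ?_ n
    · simpa using hG0
    · intro x
      show G (A * (starRingEnd ℂ) x) = (starRingEnd ℂ) (G (A * x))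
      rw [← hGc, map_mul, Complex.conj_ofReal]
    · intro x
      show ‖G (A * x)‖ ≤ _
      refine (hK' _).trans (Real.exp_le_exp.2 ?_)
      rw [norm_mul, Complex.norm_real, Real.norm_of_nonneg hA0.le]
      have h1 : (1 + A * ‖x‖) ^ (3 / 4 : ℝ) ≤ ((1 + A) * (1 + ‖x‖)) ^ (3 / 4 : ℝ) := by
        apply Real.rpow_le_rpow (by positivity) _ (by norm_num)
        nlinarith [norm_nonneg x]
      rw [Real.mul_rpow (by positivity) (by positivity)] at h1
      have h2 : (1 + A) ^ (3 / 4 : ℝ) ≤ 1 + A := by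
        calc (1 + A) ^ (3 / 4 : ℝ) ≤ (1 + A) ^ (1 : ℝ) :=
              Real.rpow_le_rpow_of_exponent_le (by linarith) (by norm_num)
          _ = 1 + A := Real.rpow_one _
      have h3 : 0 ≤ (1 + ‖x‖) ^ (3 / 4 : ℝ) := by positivity
      calc K' * (1 + A * ‖x‖) ^ (3 / 4 : ℝ) ≤ |K'| * (1 + A * ‖x‖) ^ (3 / 4 : ℝ) := by
            have : 0 ≤ (1 + A * ‖x‖) ^ (3 / 4 : ℝ) := by positivity
            have := le_abs_self K'
            gcongr
        _ ≤ |K'| * ((1 + A) * (1 + ‖x‖) ^ (3 / 4 : ℝ)) := by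
            have := abs_nonneg K'
            have h4 : (1 + A * ‖x‖) ^ (3 / 4 : ℝ) ≤ (1 + A) * (1 + ‖x‖) ^ (3 / 4 : ℝ) :=
              h1.trans (mul_le_mul_of_nonneg_right h2 h3)
            gcongr
        _ = |K'| * (1 + A) * (1 + ‖x‖) ^ (3 / 4 : ℝ) := by ring
    · intro x hx
      have hx0 : G (A * x) = 0 := hx
      set u : ℂ := ((A : ℂ) * x) ^ (1 / 2 : ℂ) with hu
      have hu2 : u ^ 2 = (A : ℂ) * x := sqrt_sq _
      have h2 : Λ (c + u) = 0 := by rw [h.eq, hFG, hu2, hx0, mul_zero, mul_zero]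
      have h3 := hRH _ h2
      rw [Complex.add_re, Complex.ofReal_re] at h3
      have h4 : u.re = 0 := by linarith
      have h5 : (A : ℂ) * x = u * u := by rw [← hu2, pow_two]
      have h6 := congrArg Complex.im h5
      have h7 := congrArg Complex.re h5
      rw [Complex.re_ofReal_mul, Complex.mul_re, h4] at h7
      rw [Complex.im_ofReal_mul, Complex.mul_im, h4] at h6
      constructor
      · have : A * x.im = 0 := by linarith
        exact (mul_eq_zero.1 this).resolve_left hA0.ne'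
      · have : A * x.re ≤ 0 := by nlinarith [sq_nonneg u.im]
        by_contra hc
        rw [not_le] at hc
        nlinarith [mul_pos hA0 hc]
  linarith

/-- **Exponentially large negative coefficients from a zero off the line.** -/
theorem Completed.neg {a : ℝ} (ha : 0 < a) (hΛ : Λ (c + a) ≠ 0) {z : ℂ} (hz : 0 < z.re)
    (h0 : Λ (c + z) = 0) {S : Set ℕ} (hS : BohrRec S) :
    ∃ ρ : ℝ, 0 < ρ ∧ ρ ≤ ‖(z - a) / (z + a)‖ ∧ ∀ N : ℕ, ∃ n ∈ S, N ≤ n ∧ 0 < n ∧
      lic Λ c a n ≤ -(1 / 8 * (ρ⁻¹) ^ n) := by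
  obtain ⟨K, hK⟩ := h.grow
  obtain ⟨m, G, hG, hG0, hFG, hGc, K', hK'⟩ := exists_factor h.diff h.ne h.conj hK
  have hza : z + a ≠ 0 := by
    intro h
    have := congrArg Complex.re h
    rw [Complex.add_re, Complex.ofReal_re, Complex.zero_re] at this
    linarith
  have hz0 : z ≠ 0 := by rintro rfl; simp at hz
  have hGz : G (z ^ 2) = 0 := by
    rw [h.eq, hFG] at h0
    rcases mul_eq_zero.1 h0 with h1 | h1
    · exact absurd h1 (pow_ne_zero _ hz0)
    · rcases mul_eq_zero.1 h1 with h2 | h2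
      · exact absurd h2 (pow_ne_zero _ (pow_ne_zero _ hz0))
      · exact h2
  have hlt := norm_cay_lt ha hz
  have hGa : G ((a : ℂ) ^ 2) ≠ 0 := by
    intro h0
    apply hΛ
    rw [h.eq, hFG, h0, mul_zero, mul_zero]
  obtain ⟨ρ, hρ0, hρ1, hρ⟩ := lf_neg (f := fun x => G (4 * (a : ℂ) ^ 2 * x))
    (hG.comp (differentiable_id.const_mul _)) (by simpa using hG0) (by
      intro x
      show G (4 * (a : ℂ) ^ 2 * (starRingEnd ℂ) x) = (starRingEnd ℂ) (G (4 * (a : ℂ) ^ 2 * x))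
      rw [← hGc, map_mul, map_mul, map_pow, Complex.conj_ofReal, map_ofNat]) (by
      show G (4 * (a : ℂ) ^ 2 * (1 / 4)) ≠ 0
      rw [show 4 * (a : ℂ) ^ 2 * (1 / 4) = (a : ℂ) ^ 2 by ring]
      exact hGa) hlt (by
      show G (4 * (a : ℂ) ^ 2 * xw ((z - a) / (z + a))) = 0
      rw [xw_div z ha hza]
      exact hGz) hS
  refine ⟨ρ, hρ0, hρ1, fun N => ?_⟩
  have hρ2 : 1 < ρ⁻¹ := (one_lt_inv₀ hρ0).2 (hρ1.trans_lt hlt)
  obtain ⟨M, hM⟩ := eventually_atTop.1
    ((tendsto_pow_atTop_atTop_of_one_lt hρ2).eventually_ge_atTop (16 * ((r + 2 * m : ℕ) : ℝ)))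
  obtain ⟨n, hnS, hn, hn0, hn1⟩ := hρ (max N M)
  refine ⟨n, hnS, (le_max_left _ _).trans hn, hn0, ?_⟩
  rw [lic_eq h hG hFG ha hΛ]
  have h1 := hM n ((le_max_right _ _).trans hn)
  have h2 := abs_two_sgn (n - 1)
  have h3 : (0 : ℝ) ≤ ((r + 2 * m : ℕ) : ℝ) := Nat.cast_nonneg _
  nlinarith

/-- **Li's criterion along sets of Bohr recurrence**, exact exponents. -/
theorem Completed.exponents {a : ℝ} (ha : 0 < a) (hΛ : Λ (c + a) ≠ 0) {S : Set ℕ} (hS : BohrRec S)
    {κ : ℝ} (hκ : 0 ≤ κ) :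
    (∀ s : ℂ, Λ s = 0 → Real.exp (-κ) ≤ ‖(s - c - a) / (s - c + a)‖) ↔
      ∀ ε : ℝ, 0 < ε → ∃ C : ℝ, ∀ n ∈ S, -(C * Real.exp ((κ + ε) * n)) ≤ lic Λ c a n := by
  obtain ⟨K, hK⟩ := h.grow
  obtain ⟨m, G, hG, hG0, hFG, hGc, K', hK'⟩ := exists_factor h.diff h.ne h.conj hK
  constructor
  · intro hs ε hε
    have h0 : ∀ w ∈ ball (0 : ℂ) (Real.exp (-κ)), (fun x => G (4 * (a : ℂ) ^ 2 * x)) (xw w) ≠ 0 := by
      intro w hw hz
      rw [mem_ball_zero_iff] at hw
      have hw1 : ‖w‖ < 1 := hw.trans_le (Real.exp_le_one_iff.2 (by linarith))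
      have hne : w ≠ 1 := by
        rintro rfl
        rw [norm_one] at hw1
        exact lt_irrefl _ hw1
      have hne1 : (1 : ℂ) - w ≠ 0 := sub_ne_zero.2 (Ne.symm hne)
      have ha0 : (a : ℂ) ≠ 0 := by exact_mod_cast ha.ne'
      have hz1 : G (4 * (a : ℂ) ^ 2 * xw w) = 0 := hz
      rw [← cay_sq hne] at hz1
      have h2 : Λ (c + a * ((1 + w) / (1 - w))) = 0 := by
        rw [h.eq, hFG, hz1, mul_zero, mul_zero]
      have h3 := hs _ h2
      have h4 : ((c : ℂ) + a * ((1 + w) / (1 - w)) - c - a) / (c + a * ((1 + w) / (1 - w)) - c + a) =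
          w := by
        have h5 : ((c : ℂ) + a * ((1 + w) / (1 - w)) - c - a) = 2 * a * w / (1 - w) := by
          field_simp
          ring
        have h6 : ((c : ℂ) + a * ((1 + w) / (1 - w)) - c + a) = 2 * a / (1 - w) := by
          field_simp
          ring
        rw [h5, h6]
        field_simp
      rw [h4] at h3
      exact absurd hw (not_lt.2 h3)
    obtain ⟨C, -, hC⟩ := lf_bound (f := fun x => G (4 * (a : ℂ) ^ 2 * x))
      (hG.comp (differentiable_id.const_mul _)) (Real.exp_pos (-(κ + ε)))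
      (Real.exp_lt_exp.2 (by linarith) : Real.exp (-(κ + ε)) < Real.exp (-κ))
      (Real.exp_le_one_iff.2 (by linarith)) h0
    refine ⟨C, fun n _ => ?_⟩
    rw [lic_eq h hG hFG ha hΛ]
    have h1 := (abs_le.1 (hC n)).1
    have h2 : ((Real.exp (-(κ + ε)))⁻¹) ^ n = Real.exp ((κ + ε) * n) := by
      rw [← Real.exp_neg, neg_neg, ← Real.exp_nat_mul, mul_comm]
    rw [h2] at h1
    have h3 : 0 ≤ ((r + 2 * m : ℕ) : ℝ) * (1 + (-1) ^ (n - 1)) :=
      mul_nonneg (Nat.cast_nonneg _) (abs_two_sgn _).1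
    linarith
  · intro hC s hs
    by_contra hcon
    rw [not_le] at hcon
    have hw1 : ‖(s - c - a) / (s - c + a)‖ < 1 := hcon.trans_le (Real.exp_le_one_iff.2 (by linarith))
    -- the zero is to the right of the centre
    have hsa : s - c + a ≠ 0 := by
      intro h1
      have h2 : s = c + -(a : ℂ) := by linear_combination h1
      rw [h2, h.symm] at hs
      rcases mul_eq_zero.1 hs with h3 | h3
      · exact absurd h3 (pow_ne_zero _ (by norm_num))
      · exact hΛ h3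
    have hre : 0 < (s - c).re := by
      by_contra hle
      rw [not_lt] at hle
      rw [norm_div, div_lt_one (norm_pos_iff.2 hsa)] at hw1
      have h1 : ‖s - c - a‖ ^ 2 < ‖s - c + a‖ ^ 2 := by
        have := norm_nonneg (s - c - a)
        nlinarith
      rw [← Complex.normSq_eq_norm_sq, ← Complex.normSq_eq_norm_sq, Complex.normSq_apply,
        Complex.normSq_apply] at h1
      simp only [Complex.sub_re, Complex.add_re, Complex.sub_im, Complex.add_im, Complex.ofReal_re,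
        Complex.ofReal_im] at h1 hle
      nlinarith
    obtain ⟨ρ, hρ0, hρw, hρ⟩ := h.neg ha hΛ hre (by rw [add_sub_cancel]; exact hs) hS
    have hκr : κ < Real.log (ρ⁻¹) := by
      rw [Real.log_inv, lt_neg, Real.log_lt_iff_lt_exp hρ0]
      exact hρw.trans_lt hcon
    set ε : ℝ := (Real.log (ρ⁻¹) - κ) / 2 with hε
    have hε0 : 0 < ε := by rw [hε]; linarith
    obtain ⟨C, hC⟩ := hC ε hε0
    have hlim : Tendsto (fun n : ℕ => |C| * Real.exp (-ε) ^ n) atTop (𝓝 0) := by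
      have h1 := (tendsto_pow_atTop_nhds_zero_of_lt_one (Real.exp_pos (-ε)).le
        (Real.exp_lt_one_iff.2 (by linarith))).const_mul |C|
      rwa [mul_zero] at h1
    obtain ⟨N, hN⟩ := eventually_atTop.1 (hlim.eventually (gt_mem_nhds (by norm_num : (0 : ℝ) < 1 / 8)))
    obtain ⟨n, hnS, hnN, hn0, hn⟩ := hρ N
    have h1 := hC n hnS
    have h2 := hN n hnN
    have e1 : (ρ⁻¹) ^ n = Real.exp ((κ + 2 * ε) * n) := by
      have : κ + 2 * ε = Real.log (ρ⁻¹) := by rw [hε]; ring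
      rw [this, mul_comm, Real.exp_nat_mul, Real.exp_log (inv_pos.2 hρ0)]
    have e2 : Real.exp ((κ + ε) * n) = Real.exp (-ε) ^ n * Real.exp ((κ + 2 * ε) * n) := by
      rw [← Real.exp_nat_mul, ← Real.exp_add]
      congr 1
      ring
    rw [e1] at hn
    rw [e2] at h1
    have h3 : 0 < Real.exp ((κ + 2 * ε) * n) := Real.exp_pos _
    have h4 : C * (Real.exp (-ε) ^ n * Real.exp ((κ + 2 * ε) * n)) ≤
        |C| * Real.exp (-ε) ^ n * Real.exp ((κ + 2 * ε) * n) := by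
      rw [← mul_assoc]
      have : 0 < Real.exp (-ε) ^ n := by positivity
      have h5 := le_abs_self C
      gcongr
    nlinarith

/-- **Li's criterion along sets of Bohr recurrence.** -/
theorem Completed.criterion {a : ℝ} (ha : 0 < a) (hΛ : Λ (c + a) ≠ 0) {S : Set ℕ} (hS : BohrRec S) :
    (∀ s : ℂ, Λ s = 0 → s.re = c) ↔ ∀ n ∈ S, 0 < n → 0 ≤ lic Λ c a n := by
  constructor
  · intro hRH n _ _
    obtain ⟨R, -, hR⟩ := h.nonneg hRH ha
    exact le_trans (mul_nonneg (Nat.cast_nonneg _) (abs_two_sgn _).1) (hR n)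
  · intro hn
    have h1 : ∀ z : ℂ, Λ (c + z) = 0 → z.re ≤ 0 := by
      intro z hz
      by_contra hcon
      rw [not_le] at hcon
      obtain ⟨ρ, hρ0, -, hρ⟩ := h.neg ha hΛ hcon hz hS
      obtain ⟨n, hnS, -, hn0, hn1⟩ := hρ 0
      have h2 := hn n hnS hn0
      have h3 : 0 < (ρ⁻¹) ^ n := by positivity
      linarith
    intro s hs
    have h2 := h1 (s - c) (by rw [add_sub_cancel]; exact hs)
    have h3 := h1 (-(s - c)) (by rw [h.symm, add_sub_cancel, hs, mul_zero])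
    simp only [Complex.sub_re, Complex.neg_re, Complex.ofReal_re] at h2 h3
    linarith

end Main

end Pool.Agent.X305.Li
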