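import Pool.Agent.X305.Li.Gen

/-!
# Li's criterion for completed L-functions which are not self-dual
-/

set_option autoImplicit false

namespace Pool.Agent.X305.Li

open Complex Filter Topology Polynomial Metric
open scoped ComplexConjugate

/-- An even entire function is an entire function of the square. -/
lemma even_entire {h : ℂ → ℂ} (hh : Differentiable ℂ h) (he : ∀ z, h (-z) = h z) :
    ∃ F : ℂ → ℂ, Differentiable ℂ F ∧ ∀ z, F (z ^ 2) = h z := by
  have hsq : ∀ u v : ℂ, u ^ 2 = v ^ 2 → h u = h v := by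
    intro u v huv
    rcases sq_eq_sq_iff_eq_or_eq_neg.1 huv with h1 | h1
    · rw [h1]
    · rw [h1, he]
  set F : ℂ → ℂ := fun x => h (x ^ (1 / 2 : ℂ)) with hF
  have hFz : ∀ z, F (z ^ 2) = h z := fun z => hsq _ _ (sqrt_sq _)
  have hF2 : ∀ x, F x = h (I * (-x) ^ (1 / 2 : ℂ)) := by
    intro x
    apply hsq
    rw [mul_pow, sqrt_sq, sqrt_sq, I_sq]
    ring
  refine ⟨F, ?_, hFz⟩
  have h1 : DifferentiableOn ℂ F {0}ᶜ := by
    intro x hx
    have hx0 : x ≠ 0 := hx
    apply DifferentiableAt.differentiableWithinAt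
    by_cases hs : x ∈ slitPlane
    · have h2 : DifferentiableAt ℂ (fun y : ℂ => y ^ (1 / 2 : ℂ)) x :=
        (differentiableAt_id.cpow_const hs)
      exact (hh _).comp x h2
    · have hs2 : -x ∈ slitPlane := by
        rw [mem_slitPlane_iff] at hs ⊢
        push Not at hs
        left
        rw [neg_re]
        rcases lt_or_eq_of_le hs.1 with h3 | h3
        · linarith
        · exact absurd (Complex.ext h3 hs.2) hx0
      have h2 : DifferentiableAt ℂ (fun y : ℂ => I * (-y) ^ (1 / 2 : ℂ)) x :=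
        (differentiableAt_id.neg.cpow_const hs2).const_mul _
      have h3 : F = fun y => h (I * (-y) ^ (1 / 2 : ℂ)) := funext hF2
      rw [h3]
      exact (hh _).comp x h2
  have h0 : ContinuousAt F 0 := by
    have h2 : Tendsto (fun x : ℂ => x ^ (1 / 2 : ℂ)) (𝓝 0) (𝓝 0) := by
      rw [tendsto_zero_iff_norm_tendsto_zero]
      have h3 : ∀ x : ℂ, ‖x ^ (1 / 2 : ℂ)‖ = Real.sqrt ‖x‖ := by
        intro x
        have h4 : ‖x ^ (1 / 2 : ℂ)‖ ^ 2 = ‖x‖ := by rw [← norm_pow, sqrt_sq]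
        rw [← h4, Real.sqrt_sq (norm_nonneg _)]
      simp only [h3]
      have h5 : Tendsto (fun x : ℂ => ‖x‖) (𝓝 0) (𝓝 0) := by
        simpa using (continuous_norm (E := ℂ)).tendsto 0
      have h5' := (Real.continuous_sqrt.tendsto 0).comp h5
      rw [Real.sqrt_zero] at h5'
      exact h5'
    have h6 : F 0 = h 0 := by
      have := hFz 0
      rwa [zero_pow two_ne_zero] at this
    show Tendsto F (𝓝 0) (𝓝 (F 0))
    rw [h6]
    exact (hh.continuous.tendsto 0).comp h2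
  intro x
  have h7 := (Complex.differentiableOn_compl_singleton_and_continuousAt_iff
    (s := Set.univ) (c := (0 : ℂ)) (f := F) univ_mem).1 ⟨by simpa [Set.compl_eq_univ_sdiff] using h1, h0⟩
  exact (h7 x (Set.mem_univ x)).differentiableAt univ_mem

/-- A completed L-function which need not be self-dual. -/
structure CompletedL (Λ : ℂ → ℂ) (c : ℝ) : Prop where
  diff : Differentiable ℂ Λ
  ne : ∃ s, Λ s ≠ 0
  fe : ∃ ε : ℂ, ‖ε‖ = 1 ∧ ∀ s, Λ (2 * c - s) = ε * conj (Λ (conj s))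
  grow : ∃ K : ℝ, ∀ s, ‖Λ s‖ ≤ Real.exp (K * (1 + ‖s‖) ^ (3 / 2 : ℝ))

/-- The product with the dual. -/
noncomputable def dbl (Λ : ℂ → ℂ) (s : ℂ) : ℂ := Λ s * conj (Λ (conj s))

lemma diff_conj {Λ : ℂ → ℂ} (h : Differentiable ℂ Λ) : Differentiable ℂ fun s => conj (Λ (conj s)) := by
  intro s
  have h1 := (h (conj s)).hasDerivAt
  have h2 := h1.conj_conj
  rw [conj_conj] at h2
  exact h2.differentiableAt

lemma CompletedL.completed {Λ : ℂ → ℂ} {c : ℝ} (h : CompletedL Λ c) :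
    ∃ F : ℂ → ℂ, Completed (dbl Λ) c F 0 := by
  obtain ⟨ε, hε, hfe⟩ := h.fe
  obtain ⟨K, hK⟩ := h.grow
  have hεε : ε * conj ε = 1 := by
    rw [Complex.mul_conj, Complex.normSq_eq_norm_sq, hε]
    norm_num
  have hd : Differentiable ℂ (dbl Λ) := h.diff.mul (diff_conj h.diff)
  have hdc : Differentiable ℂ fun z => dbl Λ (c + z) := hd.comp (differentiable_id.const_add _)
  have heven : ∀ z, dbl Λ (c + -z) = dbl Λ (c + z) := by
    intro z
    unfold dbl
    have e1 : Λ (c + -z) = ε * conj (Λ (conj (c + z))) := by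
      rw [← hfe]
      congr 1
      ring
    have e2 : Λ (conj (c + -z)) = ε * conj (Λ (c + z)) := by
      have h3 := hfe (conj (c + z))
      rw [conj_conj] at h3
      rw [← h3]
      congr 1
      rw [map_add, map_add, map_neg, Complex.conj_ofReal]
      ring
    rw [e1, e2, map_mul, conj_conj]
    linear_combination (conj (Λ (conj (c + z))) * Λ (c + z)) * hεε
  obtain ⟨F, hF, hFz⟩ := even_entire hdc heven
  refine ⟨F, hF, ?_, ?_, ?_, fun z => by rw [pow_zero, one_mul, hFz]⟩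
  · -- not identically zero
    by_contra hcon
    push Not at hcon
    have h0 : ∀ s, Λ s * (fun s => conj (Λ (conj s))) s = 0 := by
      intro s
      have h1 := hFz (s - c)
      rw [hcon, add_sub_cancel] at h1
      exact h1.symm
    have hA : AnalyticOnNhd ℂ Λ Set.univ := fun z _ => h.diff.analyticAt z
    have hB : AnalyticOnNhd ℂ (fun s => conj (Λ (conj s))) Set.univ :=
      fun z _ => (diff_conj h.diff).analyticAt z
    rcases AnalyticOnNhd.eq_zero_or_eq_zero_of_mul_eq_zero hA hB (fun s _ => h0 s)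
      isPreconnected_univ with h2 | h2
    · obtain ⟨s, hs⟩ := h.ne
      exact hs (h2 s (Set.mem_univ s))
    · obtain ⟨s, hs⟩ := h.ne
      have h3 := h2 (conj s) (Set.mem_univ _)
      simp only [conj_conj] at h3
      exact hs ((_root_.map_eq_zero _).1 h3)
  · -- real
    intro x
    have h1 : (starRingEnd ℂ) x = ((starRingEnd ℂ) (x ^ (1 / 2 : ℂ))) ^ 2 := by
      rw [← map_pow, sqrt_sq]
    have h2 : x = (x ^ (1 / 2 : ℂ)) ^ 2 := (sqrt_sq x).symm
    rw [h1, hFz]
    conv_rhs => rw [h2, hFz]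
    unfold dbl
    rw [map_mul, conj_conj, map_add, conj_conj, Complex.conj_ofReal, map_add, Complex.conj_ofReal]
    ring
  · refine ⟨|K| * (2 * ((1 + |c|) ^ (3 / 2 : ℝ) * 2 ^ (3 / 4 : ℝ))), fun x => ?_⟩
    have h2 : x = (x ^ (1 / 2 : ℂ)) ^ 2 := (sqrt_sq x).symm
    set u : ℂ := x ^ (1 / 2 : ℂ) with hu
    have hux : ‖u‖ ^ 2 = ‖x‖ := by rw [← norm_pow, ← h2]
    rw [h2, hFz]
    unfold dbl
    rw [norm_mul, Complex.norm_conj]
    have hb : ∀ s : ℂ, ‖s‖ ≤ |c| + ‖u‖ → ‖Λ s‖ ≤ Real.exp (|K| * ((1 + |c|) ^ (3 / 2 : ℝ) * (2 ^ (3 / 4 : ℝ) *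
        (1 + ‖x‖) ^ (3 / 4 : ℝ)))) := by
      intro s hs
      refine (hK s).trans (Real.exp_le_exp.2 ?_)
      have hn := norm_nonneg s
      have hun := norm_nonneg u
      have hc := abs_nonneg c
      have h3 : (1 + ‖s‖) ^ (3 / 2 : ℝ) ≤ ((1 + |c|) * (1 + ‖u‖)) ^ (3 / 2 : ℝ) := by
        apply Real.rpow_le_rpow (by positivity) _ (by norm_num)
        nlinarith
      rw [Real.mul_rpow (by positivity) (by positivity)] at h3
      have h4 : (1 + ‖u‖) ^ (3 / 2 : ℝ) ≤ 2 ^ (3 / 4 : ℝ) * (1 + ‖x‖) ^ (3 / 4 : ℝ) := by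
        rw [← Real.mul_rpow (by norm_num) (by positivity)]
        have h5 : (1 + ‖u‖) ^ (3 / 2 : ℝ) = ((1 + ‖u‖) ^ 2) ^ (3 / 4 : ℝ) := by
          rw [← Real.rpow_natCast, ← Real.rpow_mul (by positivity)]
          norm_num
        rw [h5]
        apply Real.rpow_le_rpow (by positivity) _ (by norm_num)
        nlinarith [sq_nonneg (1 - ‖u‖)]
      have h6 : 0 ≤ (1 + ‖s‖) ^ (3 / 2 : ℝ) := by positivity
      have h7 : 0 ≤ (1 + |c|) ^ (3 / 2 : ℝ) := by positivity
      calc K * (1 + ‖s‖) ^ (3 / 2 : ℝ) ≤ |K| * (1 + ‖s‖) ^ (3 / 2 : ℝ) := by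
            have := le_abs_self K
            gcongr
        _ ≤ |K| * ((1 + |c|) ^ (3 / 2 : ℝ) * (1 + ‖u‖) ^ (3 / 2 : ℝ)) := by
            have := abs_nonneg K
            gcongr
        _ ≤ _ := by
            have := abs_nonneg K
            gcongr
    have hs1 : ‖(c : ℂ) + u‖ ≤ |c| + ‖u‖ := by
      refine (norm_add_le _ _).trans ?_
      rw [Complex.norm_real, Real.norm_eq_abs]
    have hs2 : ‖conj ((c : ℂ) + u)‖ ≤ |c| + ‖u‖ := by
      rw [Complex.norm_conj]
      exact hs1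
    refine (mul_le_mul (hb _ hs1) (hb _ hs2) (norm_nonneg _) (Real.exp_pos _).le).trans ?_
    rw [← Real.exp_add]
    apply Real.exp_le_exp.2
    rw [← h2]
    apply le_of_eq
    ring

lemma iter_conj (f : ℂ → ℂ) (n : ℕ) :
    iteratedDeriv n (fun z => conj (f (conj z))) = fun z => conj (iteratedDeriv n f (conj z)) := by
  induction n with
  | zero =>
    funext z
    simp only [iteratedDeriv_zero]
  | succ n ih =>
    rw [iteratedDeriv_succ, ih, iteratedDeriv_succ]
    have h := deriv_conj_conj (f := iteratedDeriv n f)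
    exact h

lemma tc_conj (f : ℂ → ℂ) (n : ℕ) : tc n (fun z => conj (f (conj z))) = conj (tc n f) := by
  unfold tc
  rw [iter_conj, map_div₀, map_natCast]
  show conj (iteratedDeriv n f (conj 0)) / _ = _
  rw [map_zero]

/-- The Li coefficients of the product with the dual. -/
lemma lic_dbl {Λ : ℂ → ℂ} {c : ℝ} (h : Differentiable ℂ Λ) {a : ℝ} (hΛ : Λ (c + a) ≠ 0) (n : ℕ) :
    lic (dbl Λ) c a n = 2 * lic Λ c a n := by
  set g : ℂ → ℂ := fun z => Λ (c + a * ((1 + z) / (1 - z))) with hg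
  have hcay : AnalyticAt ℂ (fun z : ℂ => (c : ℂ) + a * ((1 + z) / (1 - z))) 0 := by
    refine analyticAt_const.add (analyticAt_const.mul
      ((by fun_prop : AnalyticAt ℂ (fun z : ℂ => 1 + z) 0).div (by fun_prop) ?_))
    norm_num
  have hga : AnalyticAt ℂ g 0 := AnalyticAt.fun_comp (h.analyticAt _) hcay
  have hg0 : g 0 ≠ 0 := by
    show Λ (c + a * ((1 + 0) / (1 - 0))) ≠ 0
    rw [add_zero, sub_zero, div_one, mul_one]
    exact hΛ
  have hcayc : ∀ z : ℂ, conj ((c : ℂ) + a * ((1 + z) / (1 - z))) =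
      c + a * ((1 + conj z) / (1 - conj z)) := by
    intro z
    rw [map_add, map_mul, map_div₀, map_add, map_sub, map_one, Complex.conj_ofReal, Complex.conj_ofReal]
  have e1 : (fun z => dbl Λ (c + a * ((1 + z) / (1 - z)))) = fun z => g z * conj (g (conj z)) := by
    funext z
    unfold dbl
    rw [hcayc]
  have hg2a : AnalyticAt ℂ (fun z => conj (g (conj z))) 0 := by
    have e : (fun z => conj (g (conj z))) =
        fun z => (fun s => conj (Λ (conj s))) ((c : ℂ) + a * ((1 + z) / (1 - z))) := by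
      funext z
      show conj (Λ (c + a * ((1 + conj z) / (1 - conj z)))) = conj (Λ (conj _))
      rw [hcayc]
    rw [e]
    exact AnalyticAt.fun_comp (g := fun s => conj (Λ (conj s))) ((diff_conj h).analyticAt _) hcay
  have hg20 : (fun z => conj (g (conj z))) 0 ≠ 0 := by
    show conj (g (conj 0)) ≠ 0
    rw [map_zero]
    exact (_root_.map_ne_zero _).2 hg0
  have e2 : (logDeriv fun z => conj (g (conj z))) = fun z => conj (logDeriv g (conj z)) := by
    funext z
    rw [logDeriv_apply, logDeriv_apply, map_div₀]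
    have h1 := congrFun (deriv_conj_conj (f := g)) z
    have h2 : deriv (fun z => conj (g (conj z))) z = conj (deriv g (conj z)) := h1
    rw [h2]
  unfold lic
  have e3 : tc (n - 1) (logDeriv fun z => dbl Λ (c + a * ((1 + z) / (1 - z)))) =
      tc (n - 1) (logDeriv g) + conj (tc (n - 1) (logDeriv g)) := by
    rw [e1, tc_logDeriv_mul hga hg2a hg0 hg20, e2, tc_conj]
  have e4 : (tc (n - 1) (logDeriv fun z => dbl Λ (c + a * ((1 + z) / (1 - z))))).re =
      2 * (tc (n - 1) (logDeriv g)).re := by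
    rw [e3, Complex.add_re, Complex.conj_re]
    ring
  exact e4

lemma dbl_zero_iff {Λ : ℂ → ℂ} (s : ℂ) : dbl Λ s = 0 ↔ Λ s = 0 ∨ Λ (conj s) = 0 := by
  unfold dbl
  rw [mul_eq_zero, _root_.map_eq_zero]

lemma dbl_ne {Λ : ℂ → ℂ} {c a : ℝ} (hΛ : Λ (c + a) ≠ 0) : dbl Λ (c + a) ≠ 0 := by
  rw [Ne, dbl_zero_iff, not_or]
  refine ⟨hΛ, ?_⟩
  rw [map_add, Complex.conj_ofReal, Complex.conj_ofReal]
  exact hΛ

lemma dbl_line {Λ : ℂ → ℂ} {c : ℝ} : (∀ s, dbl Λ s = 0 → s.re = c) ↔ ∀ s, Λ s = 0 → s.re = c := by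
  constructor
  · intro h s hs
    exact h s ((dbl_zero_iff s).2 (Or.inl hs))
  · intro h s hs
    rcases (dbl_zero_iff s).1 hs with h1 | h1
    · exact h s h1
    · have := h _ h1
      rwa [Complex.conj_re] at this

section Main
variable {Λ : ℂ → ℂ} {c : ℝ} (h : CompletedL Λ c)
include h

/-- **Li's criterion along sets of Bohr recurrence**, general case. -/
theorem CompletedL.criterion {a : ℝ} (ha : 0 < a) (hΛ : Λ (c + a) ≠ 0) {S : Set ℕ} (hS : BohrRec S) :
    (∀ s : ℂ, Λ s = 0 → s.re = c) ↔ ∀ n ∈ S, 0 < n → 0 ≤ lic Λ c a n := by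
  obtain ⟨F, hF⟩ := h.completed
  rw [← dbl_line, hF.criterion ha (dbl_ne hΛ) hS]
  simp only [lic_dbl h.diff hΛ]
  constructor
  · intro h1 n hn hn0
    have := h1 n hn hn0
    linarith
  · intro h1 n hn hn0
    have := h1 n hn hn0
    linarith

/-- **Li's criterion along sets of Bohr recurrence**, exact exponents, general case. -/
theorem CompletedL.exponents {a : ℝ} (ha : 0 < a) (hΛ : Λ (c + a) ≠ 0) {S : Set ℕ} (hS : BohrRec S)
    {κ : ℝ} (hκ : 0 ≤ κ) :
    (∀ s : ℂ, Λ s = 0 → Real.exp (-κ) ≤ ‖(s - c - a) / (s - c + a)‖) ↔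
      ∀ ε : ℝ, 0 < ε → ∃ C : ℝ, ∀ n ∈ S, -(C * Real.exp ((κ + ε) * n)) ≤ lic Λ c a n := by
  obtain ⟨F, hF⟩ := h.completed
  have h1 := hF.exponents ha (dbl_ne hΛ) hS hκ
  have hc : ∀ s : ℂ, ‖(conj s - c - a) / (conj s - c + a)‖ = ‖(s - c - a) / (s - c + a)‖ := by
    intro s
    have e : (conj s - c - a) / (conj s - c + a) = conj ((s - c - a) / (s - c + a)) := by
      simp only [map_div₀, map_sub, map_add, Complex.conj_ofReal]
    rw [e, Complex.norm_conj]
  have h2 : (∀ s : ℂ, dbl Λ s = 0 → Real.exp (-κ) ≤ ‖(s - c - a) / (s - c + a)‖) ↔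
      ∀ s : ℂ, Λ s = 0 → Real.exp (-κ) ≤ ‖(s - c - a) / (s - c + a)‖ := by
    constructor
    · intro h s hs
      exact h s ((dbl_zero_iff s).2 (Or.inl hs))
    · intro h s hs
      rcases (dbl_zero_iff s).1 hs with h3 | h3
      · exact h s h3
      · rw [← hc]
        exact h _ h3
  rw [← h2, h1]
  simp only [lic_dbl h.diff hΛ]
  constructor
  · intro h3 ε hε
    obtain ⟨C, hC⟩ := h3 ε hε
    refine ⟨C / 2, fun n hn => ?_⟩
    have := hC n hn
    linarith
  · intro h3 ε hε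
    obtain ⟨C, hC⟩ := h3 ε hε
    refine ⟨C * 2, fun n hn => ?_⟩
    have := hC n hn
    linarith

/-- **Exponentially large negative coefficients from a zero off the line.** -/
theorem CompletedL.neg {a : ℝ} (ha : 0 < a) (hΛ : Λ (c + a) ≠ 0) {z : ℂ} (hz : 0 < z.re)
    (h0 : Λ (c + z) = 0) {S : Set ℕ} (hS : BohrRec S) :
    ∃ ρ : ℝ, 0 < ρ ∧ ρ ≤ ‖(z - a) / (z + a)‖ ∧ ∀ N : ℕ, ∃ n ∈ S, N ≤ n ∧ 0 < n ∧
      lic Λ c a n ≤ -(1 / 16 * (ρ⁻¹) ^ n) := by
  obtain ⟨F, hF⟩ := h.completed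
  obtain ⟨ρ, h1, h2, h3⟩ := hF.neg ha (dbl_ne hΛ) hz ((dbl_zero_iff _).2 (Or.inl h0)) hS
  refine ⟨ρ, h1, h2, fun N => ?_⟩
  obtain ⟨n, hn, hnN, hn0, h4⟩ := h3 N
  rw [lic_dbl h.diff hΛ] at h4
  exact ⟨n, hn, hnN, hn0, by linarith⟩

/-- **Positivity under the Riemann hypothesis**, with the contribution of the central zero. -/
theorem CompletedL.nonneg (hRH : ∀ s, Λ s = 0 → s.re = c) :
    ∃ R : ℕ, analyticOrderAt Λ c = (R : ℕ∞) ∧
      ∀ a : ℝ, 0 < a → ∀ n : ℕ, (R : ℝ) * (1 + (-1) ^ (n - 1)) ≤ lic Λ c a n := by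
  obtain ⟨F, hF⟩ := h.completed
  have hΛ : ∀ a : ℝ, 0 < a → Λ (c + a) ≠ 0 := by
    intro a ha h0
    have h1 := hRH _ h0
    rw [Complex.add_re, Complex.ofReal_re, Complex.ofReal_re] at h1
    linarith
  have ha : ∀ {a : ℝ}, 0 < a → _ := fun {a} => hF.nonneg (dbl_line.2 hRH) (a := a)
  have hA : AnalyticAt ℂ Λ c := h.diff.analyticAt _
  have hB : AnalyticAt ℂ (fun s => conj (Λ (conj s))) c := (diff_conj h.diff).analyticAt _
  have hord : analyticOrderAt (dbl Λ) c = analyticOrderAt Λ c + analyticOrderAt Λ c := by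
    have e1 : dbl Λ = Λ * fun s => conj (Λ (conj s)) := rfl
    rw [e1, analyticOrderAt_mul hA hB]
    congr 1
    -- the order of the dual
    by_cases h' : analyticOrderAt Λ c = ⊤
    · rw [h']
      rw [analyticOrderAt_eq_top] at h' ⊢
      have h2 : Tendsto (fun s : ℂ => conj s) (𝓝 (c : ℂ)) (𝓝 (c : ℂ)) := by
        have := continuous_conj.tendsto (c : ℂ)
        rwa [Complex.conj_ofReal] at this
      filter_upwards [h2.eventually h'] with s hs
      rw [hs, map_zero]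
    · obtain ⟨m, hm⟩ := ENat.ne_top_iff_exists.1 h'
      rw [← hm]
      have h' := hm.symm
      rw [hA.analyticOrderAt_eq_natCast] at h'
      rw [hB.analyticOrderAt_eq_natCast]
      obtain ⟨g, hg, hg0, hge⟩ := h'
      have h2 : Tendsto (fun s : ℂ => conj s) (𝓝 (c : ℂ)) (𝓝 (c : ℂ)) := by
        have := continuous_conj.tendsto (c : ℂ)
        rwa [Complex.conj_ofReal] at this
      refine ⟨fun s => conj (g (conj s)), ?_, ?_, ?_⟩
      · have h3 : ∀ᶠ s in 𝓝 (c : ℂ), DifferentiableAt ℂ g s := by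
          filter_upwards [hg.eventually_analyticAt] with s hs using hs.differentiableAt
        refine Complex.analyticAt_iff_eventually_differentiableAt.2 ?_
        filter_upwards [h2.eventually h3] with s hs
        have h4 := hs.hasDerivAt.conj_conj
        rw [conj_conj] at h4
        exact h4.differentiableAt
      · show conj (g (conj (c : ℂ))) ≠ 0
        rw [Complex.conj_ofReal]
        exact (_root_.map_ne_zero _).2 hg0
      · filter_upwards [h2.eventually hge] with s hs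
        rw [hs, smul_eq_mul, smul_eq_mul, map_mul, map_pow, map_sub, conj_conj, Complex.conj_ofReal]
  obtain ⟨R0, hR0, -⟩ := ha one_pos
  have hfin : analyticOrderAt Λ c ≠ ⊤ := by
    intro h1
    rw [h1, hR0] at hord
    simp at hord
  obtain ⟨R, hR⟩ := ENat.ne_top_iff_exists.1 hfin
  refine ⟨R, hR.symm, fun a ha1 n => ?_⟩
  obtain ⟨R', hR', h1⟩ := ha ha1
  rw [hord, ← hR] at hR'
  have h2 : R + R = R' := by exact_mod_cast hR'
  have h3 := h1 n
  rw [lic_dbl h.diff (hΛ a ha1), ← h2] at h3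
  push_cast at h3
  have h4 : ((R : ℝ) + R) * (1 + (-1) ^ (n - 1)) = 2 * ((R : ℝ) * (1 + (-1) ^ (n - 1))) := by ring
  rw [h4] at h3
  linarith

end Main

end Pool.Agent.X305.Li
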