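import Pool.Agent.W355.UN.Stm
import Pool.Agent.W12.UN.Slow
import Pool.Agent.W215.UN.Gam

/-!
# L-functions have order at most `3/2`
-/

set_option autoImplicit false

namespace Pool.Agent.X305.Li

open Complex Filter Topology
open scoped ComplexConjugate

/-- growth of order at most `3/2` -/
def Gr (F : ℂ → ℂ) : Prop := ∃ K : ℝ, ∀ s, ‖F s‖ ≤ Real.exp (K * (1 + ‖s‖) ^ (3 / 2 : ℝ))

lemma one_le_base (s : ℂ) : 1 ≤ (1 + ‖s‖) ^ (3 / 2 : ℝ) :=
  Real.one_le_rpow (by linarith [norm_nonneg s]) (by norm_num)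

lemma le_base (s : ℂ) : 1 + ‖s‖ ≤ (1 + ‖s‖) ^ (3 / 2 : ℝ) := by
  calc 1 + ‖s‖ = (1 + ‖s‖) ^ (1 : ℝ) := (Real.rpow_one _).symm
    _ ≤ (1 + ‖s‖) ^ (3 / 2 : ℝ) :=
      Real.rpow_le_rpow_of_exponent_le (by linarith [norm_nonneg s]) (by norm_num)

lemma Gr.mul {F G : ℂ → ℂ} (hF : Gr F) (hG : Gr G) : Gr fun s => F s * G s := by
  obtain ⟨K1, h1⟩ := hF
  obtain ⟨K2, h2⟩ := hG
  refine ⟨K1 + K2, fun s => ?_⟩
  rw [norm_mul, add_mul, Real.exp_add]
  exact mul_le_mul (h1 s) (h2 s) (norm_nonneg _) (Real.exp_pos _).le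

/-- polynomial bounds -/
lemma poly_le {M : ℝ} (hM : 0 ≤ M) (k : ℕ) : ∃ K : ℝ, 0 ≤ K ∧ ∀ s : ℂ,
    M * (1 + ‖s‖) ^ k ≤ Real.exp (K * (1 + ‖s‖) ^ (3 / 2 : ℝ)) := by
  refine ⟨M + k, by positivity, fun s => ?_⟩
  have h1 : (1 + ‖s‖) ≤ Real.exp ((1 + ‖s‖) ^ (3 / 2 : ℝ)) := by
    have h2 := Real.add_one_le_exp ((1 + ‖s‖) ^ (3 / 2 : ℝ))
    have h3 := le_base s
    linarith
  have h4 : (1 + ‖s‖) ^ k ≤ Real.exp (k * (1 + ‖s‖) ^ (3 / 2 : ℝ)) := by
    rw [Real.exp_nat_mul]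
    exact pow_le_pow_left₀ (by positivity) h1 k
  have h5 : M ≤ Real.exp (M * (1 + ‖s‖) ^ (3 / 2 : ℝ)) := by
    have h6 := Real.add_one_le_exp (M * (1 + ‖s‖) ^ (3 / 2 : ℝ))
    have h7 := one_le_base s
    nlinarith
  rw [add_mul, Real.exp_add]
  exact mul_le_mul h5 h4 (by positivity) (Real.exp_pos _).le

/-- **Growth from a functional equation.** -/
theorem growth_fe {F : ℂ → ℂ} (hF : Differentiable ℂ F)
    (hord : ∃ A ρ : ℝ, ∀ s : ℂ, ‖F s‖ ≤ Real.exp (A * (1 + ‖s‖) ^ ρ))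
    (hfe : ∃ ε : ℂ, ‖ε‖ = 1 ∧ ∀ s : ℂ, F s = ε * conj (F (1 - conj s))) {σ : ℝ} (hσ : 1 ≤ σ)
    (h1 : ∃ K : ℝ, ∀ s : ℂ, σ ≤ s.re → ‖F s‖ ≤ Real.exp (K * (1 + ‖s‖) ^ (3 / 2 : ℝ)))
    {M : ℝ} {k : ℕ} (h2 : ∀ s : ℂ, s.re = σ → ‖F s‖ ≤ M * (1 + ‖s‖) ^ k) : Gr F := by
  obtain ⟨A, ρ, hord⟩ := hord
  obtain ⟨ε, hε, hfe⟩ := hfe
  obtain ⟨K1, h1⟩ := h1
  have hM : 0 ≤ M := by
    have h3 := h2 σ (Complex.ofReal_re _)
    have h4 : 0 < (1 + ‖(σ : ℂ)‖) ^ k := by positivity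
    by_contra hneg
    push Not at hneg
    have := norm_nonneg (F σ)
    nlinarith
  have hrefl : ∀ s : ℂ, ‖F s‖ = ‖F (1 - conj s)‖ := fun s => by
    rw [hfe s, norm_mul, hε, one_mul, Complex.norm_conj]
  have hre1 : ∀ s : ℂ, (1 - conj s).re = 1 - s.re := fun s => by
    rw [Complex.sub_re, Complex.one_re, Complex.conj_re]
  have hn1 : ∀ s : ℂ, ‖1 - conj s‖ ≤ 1 + ‖s‖ := fun s => by
    refine (norm_sub_le _ _).trans ?_
    rw [norm_one, Complex.norm_conj]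
  -- the strip
  have hge : ∀ z : ℂ, 1 - σ ≤ z.re → 2 ≤ ‖z + (σ + 1 : ℝ)‖ := by
    intro z hz
    have h3 := Complex.re_le_norm (z + (σ + 1 : ℝ))
    rw [Complex.add_re, Complex.ofReal_re] at h3
    linarith
  have hne : ∀ z : ℂ, 1 - σ ≤ z.re → z + (σ + 1 : ℝ) ≠ 0 := by
    intro z hz h0
    have h3 := hge z hz
    rw [h0, norm_zero] at h3
    linarith
  have hcmp : ∀ z : ℂ, 1 - σ ≤ z.re → 1 + ‖z‖ ≤ (σ + 2) * ‖z + (σ + 1 : ℝ)‖ := by
    intro z hz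
    have h3 := hge z hz
    have h4 : ‖z‖ ≤ ‖z + (σ + 1 : ℝ)‖ + (σ + 1) := by
      have h5 : z = (z + (σ + 1 : ℝ)) - (σ + 1 : ℝ) := by ring
      calc ‖z‖ = ‖(z + (σ + 1 : ℝ)) - (σ + 1 : ℝ)‖ := by rw [← h5]
        _ ≤ ‖z + (σ + 1 : ℝ)‖ + ‖((σ + 1 : ℝ) : ℂ)‖ := norm_sub_le _ _
        _ = _ := by
          rw [Complex.norm_real, Real.norm_of_nonneg (by linarith : (0 : ℝ) ≤ σ + 1)]
    nlinarith
  set C : ℝ := M * (2 * (σ + 2)) ^ k with hC
  have hσ2 : 0 < σ + 2 := by linarith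
  have hstrip : ∀ u : ℂ, 1 - σ ≤ u.re → u.re ≤ σ → ‖F u‖ ≤ C * ‖u + (σ + 1 : ℝ)‖ ^ k := by
    intro u hu1 hu2
    obtain ⟨c, K, hc0, hc1, hK, hg⟩ := Pool.Agent.W12.UN.growth (1 - σ - 1) (σ + 1) (by linarith) A ρ
    have hcond : c < Real.pi / (σ - (1 - σ)) ∨ σ = 1 / 2 := by
      left
      refine hc1.trans_le ?_
      apply div_le_div_of_nonneg_left Real.pi_pos.le
      · linarith
      · linarith
    have hc1' : c < Real.pi / (σ - (1 - σ)) := by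
      rcases hcond with h | h
      · exact h
      · linarith
    have hPL := PhragmenLindelof.vertical_strip (a := 1 - σ) (b := σ)
      (f := fun z => F z / (z + (σ + 1 : ℝ)) ^ k) (C := C) (z := u) ?_ ?_ ?_ ?_ hu1 hu2
    · have h3 : ‖F u‖ / ‖u + (σ + 1 : ℝ)‖ ^ k ≤ C := by
        rw [← norm_pow, ← norm_div]
        exact hPL
      rwa [div_le_iff₀ (pow_pos (by linarith [hge u hu1]) k)] at h3
    · have hcl : closure (Complex.re ⁻¹' Set.Ioo (1 - σ) σ) ⊆ Complex.re ⁻¹' Set.Icc (1 - σ) σ := by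
        apply closure_minimal (Set.preimage_mono Set.Ioo_subset_Icc_self)
        exact isClosed_Icc.preimage Complex.continuous_re
      have hd : DifferentiableOn ℂ (fun z => F z / (z + (σ + 1 : ℝ)) ^ k)
          (closure (Complex.re ⁻¹' Set.Ioo (1 - σ) σ)) := by
        intro z hz
        have hz1 := (hcl hz).1
        apply DifferentiableAt.differentiableWithinAt
        exact (hF z).div ((differentiableAt_id.add_const _).pow k) (pow_ne_zero _ (hne z hz1))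
      exact hd.diffContOnCl
    · refine ⟨c, hc1', K, ?_⟩
      refine Asymptotics.IsBigO.of_bound 1 ?_
      refine Filter.mem_inf_of_right ?_
      rw [Filter.mem_principal]
      intro z hz
      have hz1 : 1 - σ < z.re := hz.1
      have hz2 : z.re < σ := hz.2
      rw [Set.mem_ofPred_eq, Real.norm_of_nonneg (Real.exp_pos _).le, norm_div, norm_pow, one_mul]
      have h3 := hge z hz1.le
      have h4 : ‖F z‖ / ‖z + (σ + 1 : ℝ)‖ ^ k ≤ ‖F z‖ :=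
        div_le_self (norm_nonneg _) (one_le_pow₀ (by linarith))
      exact h4.trans ((hord z).trans (Real.exp_le_exp.2 (hg z (by linarith) (by linarith))))
    · intro z hz
      have hz1 : 1 - σ ≤ z.re := hz.ge
      rw [norm_div, norm_pow, div_le_iff₀ (pow_pos (by linarith [hge z hz1]) k), hrefl]
      refine (h2 _ (by rw [hre1, hz]; ring)).trans ?_
      rw [hC, mul_assoc, ← mul_pow]
      apply mul_le_mul_of_nonneg_left _ hM
      apply pow_le_pow_left₀ (by positivity)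
      have h3 := hn1 z
      have h4 := hcmp z hz1
      have := norm_nonneg z
      nlinarith
    · intro z hz
      have hz1 : 1 - σ ≤ z.re := by rw [hz]; linarith
      rw [norm_div, norm_pow, div_le_iff₀ (pow_pos (by linarith [hge z hz1]) k)]
      refine (h2 _ hz).trans ?_
      rw [hC, mul_assoc, ← mul_pow]
      apply mul_le_mul_of_nonneg_left _ hM
      apply pow_le_pow_left₀ (by positivity)
      have h4 := hcmp z hz1
      have h5 := hge z hz1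
      nlinarith
  have hC0 : 0 ≤ C := by positivity
  obtain ⟨K2, hK2, h3⟩ := poly_le (M := C * (σ + 2) ^ k) (by positivity) k
  have h2K : 0 ≤ |K1| * 2 ^ (3 / 2 : ℝ) := by positivity
  refine ⟨|K1| * 2 ^ (3 / 2 : ℝ) + K2, fun s => ?_⟩
  have hb := one_le_base s
  rcases le_total σ s.re with hs | hs
  · refine (h1 s hs).trans (Real.exp_le_exp.2 ?_)
    have h4 := le_abs_self K1
    have h5 := abs_nonneg K1
    have h6 : (1 : ℝ) ≤ 2 ^ (3 / 2 : ℝ) := Real.one_le_rpow (by norm_num) (by norm_num)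
    have h7 : K1 ≤ |K1| * 2 ^ (3 / 2 : ℝ) + K2 := by nlinarith
    nlinarith
  · rcases le_total (1 - σ) s.re with hs2 | hs2
    · refine (hstrip s hs2 hs).trans ?_
      have h4 : C * ‖s + (σ + 1 : ℝ)‖ ^ k ≤ C * (σ + 2) ^ k * (1 + ‖s‖) ^ k := by
        rw [mul_assoc C, ← mul_pow]
        apply mul_le_mul_of_nonneg_left _ hC0
        apply pow_le_pow_left₀ (norm_nonneg _)
        refine (norm_add_le _ _).trans ?_
        rw [Complex.norm_real, Real.norm_of_nonneg (by linarith : (0 : ℝ) ≤ σ + 1)]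
        have := norm_nonneg s
        nlinarith
      refine h4.trans ((h3 s).trans (Real.exp_le_exp.2 ?_))
      nlinarith
    · rw [hrefl]
      refine (h1 _ (by rw [hre1]; linarith)).trans (Real.exp_le_exp.2 ?_)
      have h4 : (1 + ‖1 - conj s‖) ^ (3 / 2 : ℝ) ≤ 2 ^ (3 / 2 : ℝ) * (1 + ‖s‖) ^ (3 / 2 : ℝ) := by
        rw [← Real.mul_rpow (by norm_num) (by positivity)]
        apply Real.rpow_le_rpow (by positivity) _ (by norm_num)
        have := hn1 s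
        have := norm_nonneg s
        linarith
      have h5 := le_abs_self K1
      have h6 := abs_nonneg K1
      have h7 : 0 ≤ (1 + ‖1 - conj s‖) ^ (3 / 2 : ℝ) := by positivity
      calc K1 * (1 + ‖1 - conj s‖) ^ (3 / 2 : ℝ) ≤ |K1| * (1 + ‖1 - conj s‖) ^ (3 / 2 : ℝ) := by gcongr
        _ ≤ |K1| * (2 ^ (3 / 2 : ℝ) * (1 + ‖s‖) ^ (3 / 2 : ℝ)) := by gcongr
        _ ≤ _ := by nlinarith

/-- the Gamma function -/
lemma gamma_le : ∃ C : ℝ, 1 ≤ C ∧ ∀ x : ℝ, 3 / 4 ≤ x →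
    Real.Gamma x ≤ C * Real.exp (2 * (x + 1) ^ (3 / 2 : ℝ)) := by
  have hcont : ContinuousOn (fun x : ℝ => Real.Gamma x) (Set.Icc (3 / 4) 2) := by
    intro x hx
    apply ContinuousAt.continuousWithinAt
    apply (Real.differentiableAt_Gamma _).continuousAt
    intro m h
    have h1 := hx.1
    have h2 : (0 : ℝ) ≤ m := Nat.cast_nonneg m
    linarith
  obtain ⟨C, hC⟩ := isCompact_Icc.exists_bound_of_continuousOn hcont
  refine ⟨max C 1, le_max_right _ _, fun x hx => ?_⟩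
  have hC1 : 1 ≤ max C 1 := le_max_right _ _
  rcases le_total x 2 with h2 | h2
  · have h3 := hC x ⟨hx, h2⟩
    have h4 : Real.Gamma x ≤ max C 1 := ((le_abs_self _).trans h3).trans (le_max_left _ _)
    have h5 : 1 ≤ Real.exp (2 * (x + 1) ^ (3 / 2 : ℝ)) := Real.one_le_exp (by positivity)
    nlinarith
  · have h3 : Real.Gamma x ≤ Real.Gamma (⌈x⌉₊ + 1) := by
      refine Real.Gamma_strictMonoOn_Ici.monotoneOn ?_ ?_ ?_
      · exact h2
      · have := Nat.le_ceil x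
        show (2 : ℝ) ≤ _
        linarith
      · have := Nat.le_ceil x
        linarith
    rw [Real.Gamma_nat_eq_factorial] at h3
    have hn : (⌈x⌉₊ : ℝ) ≤ x + 1 := (Nat.ceil_lt_add_one (by linarith)).le
    have hn1 : (1 : ℝ) ≤ ⌈x⌉₊ := by
      have := Nat.le_ceil x
      linarith
    have h4 : ((⌈x⌉₊.factorial : ℕ) : ℝ) ≤ (⌈x⌉₊ : ℝ) ^ ⌈x⌉₊ := by
      exact_mod_cast Nat.factorial_le_pow ⌈x⌉₊
    have h5 : (⌈x⌉₊ : ℝ) ^ ⌈x⌉₊ ≤ Real.exp (2 * (x + 1) ^ (3 / 2 : ℝ)) := by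
      have h6 : (⌈x⌉₊ : ℝ) ^ ⌈x⌉₊ = Real.exp (⌈x⌉₊ * Real.log ⌈x⌉₊) := by
        rw [Real.exp_nat_mul, Real.exp_log (by linarith)]
      rw [h6]
      apply Real.exp_le_exp.2
      have h7 : Real.log ⌈x⌉₊ ≤ 2 * (x + 1) ^ (1 / 2 : ℝ) := by
        have h8 : Real.log (x + 1) = 2 * Real.log ((x + 1) ^ (1 / 2 : ℝ)) := by
          rw [Real.log_rpow (by linarith)]
          ring
        have h9 : Real.log ⌈x⌉₊ ≤ Real.log (x + 1) := Real.log_le_log (by linarith) hn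
        have h10 : Real.log ((x + 1) ^ (1 / 2 : ℝ)) ≤ (x + 1) ^ (1 / 2 : ℝ) :=
          (Real.log_le_sub_one_of_pos (by positivity)).trans (by linarith)
        linarith
      have h11 : (x + 1) ^ (3 / 2 : ℝ) = (x + 1) * (x + 1) ^ (1 / 2 : ℝ) := by
        rw [show (3 / 2 : ℝ) = 1 + 1 / 2 by norm_num, Real.rpow_add (by linarith), Real.rpow_one]
      rw [h11]
      have h12 : 0 ≤ Real.log (⌈x⌉₊ : ℝ) := Real.log_nonneg hn1
      have h13 : 0 ≤ (x + 1) ^ (1 / 2 : ℝ) := by positivity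
      calc (⌈x⌉₊ : ℝ) * Real.log ⌈x⌉₊ ≤ (x + 1) * (2 * (x + 1) ^ (1 / 2 : ℝ)) :=
            mul_le_mul hn h7 h12 (by linarith)
        _ = 2 * ((x + 1) * (x + 1) ^ (1 / 2 : ℝ)) := by ring
    have h14 : 0 < Real.exp (2 * (x + 1) ^ (3 / 2 : ℝ)) := Real.exp_pos _
    nlinarith

/-- the Gamma factors -/
lemma gammaR_le {a : ℂ} (ha : -1 / 2 ≤ a.re) : ∃ K : ℝ, 0 ≤ K ∧ ∀ s : ℂ, 2 ≤ s.re →
    ‖Gammaℝ (s + a)‖ ≤ Real.exp (K * (1 + ‖s‖) ^ (3 / 2 : ℝ)) ∧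
    ‖Gammaℝ (s + a)‖ ≤ Real.Gamma ((s.re + a.re) / 2) := by
  obtain ⟨C, hC, hG⟩ := gamma_le
  refine ⟨C + 2 * (2 + ‖a‖) ^ (3 / 2 : ℝ), by positivity, fun s hs => ?_⟩
  have hre : ((s + a) / 2).re = (s.re + a.re) / 2 := by
    have : ((s + a) / 2) = (((1 / 2 : ℝ)) : ℂ) * (s + a) := by
      push_cast
      ring
    rw [this, Complex.re_ofReal_mul, Complex.add_re]
    ring
  have hx : 3 / 4 ≤ ((s + a) / 2).re := by
    rw [hre]
    linarith
  have hneg : (-(s + a) / 2).re = -((s + a) / 2).re := by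
    rw [neg_div, Complex.neg_re]
  have h1 : Real.pi ^ (-((s + a) / 2).re) ≤ 1 := by
    apply Real.rpow_le_one_of_one_le_of_nonpos
    · linarith [Real.pi_gt_three]
    · linarith
  have h2 := Pool.Agent.W215.UN.norm_Gamma_le ((s + a) / 2) (by linarith)
  have h0 : ‖Gammaℝ (s + a)‖ ≤ Real.Gamma ((s + a) / 2).re := by
    rw [Complex.Gammaℝ_def, norm_mul, Complex.norm_cpow_eq_rpow_re_of_pos Real.pi_pos, hneg]
    calc Real.pi ^ (-((s + a) / 2).re) * ‖Complex.Gamma ((s + a) / 2)‖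
        ≤ 1 * Real.Gamma ((s + a) / 2).re := mul_le_mul h1 h2 (norm_nonneg _) zero_le_one
      _ = _ := one_mul _
  refine ⟨?_, by rw [← hre]; exact h0⟩
  refine h0.trans ((hG _ hx).trans ?_)
  have h3 : C ≤ Real.exp (C * (1 + ‖s‖) ^ (3 / 2 : ℝ)) := by
    have h4 := Real.add_one_le_exp (C * (1 + ‖s‖) ^ (3 / 2 : ℝ))
    have h5 := one_le_base s
    nlinarith
  have h6 : (((s + a) / 2).re + 1) ^ (3 / 2 : ℝ) ≤ (2 + ‖a‖) ^ (3 / 2 : ℝ) * (1 + ‖s‖) ^ (3 / 2 : ℝ) := by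
    rw [← Real.mul_rpow (by positivity) (by positivity)]
    apply Real.rpow_le_rpow (by linarith) _ (by norm_num)
    rw [hre]
    have h7 := Complex.re_le_norm s
    have h8 := Complex.re_le_norm a
    have h9 := norm_nonneg s
    have h10 := norm_nonneg a
    nlinarith
  rw [add_mul, Real.exp_add]
  apply mul_le_mul h3 _ (Real.exp_pos _).le (Real.exp_pos _).le
  apply Real.exp_le_exp.2
  nlinarith

end Pool.Agent.X305.Li
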