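import Pool.Agent.X305.Li.Gen
import Pool.Agent.H128R3.GJC

/-!
# Li's criterion for Dirichlet series with a functional equation of Hecke type
-/

set_option autoImplicit false

namespace Pool.Agent.X305.Li

open Complex Filter Topology Polynomial Metric Pool.Agent.H471R3.GJ Pool.Agent.H128R3.GJB

open Classical in
theorem completed_hk {H : Hk} (h : IsHk H) :
    ∃ F : ℂ → ℂ, Completed (mellin (fun y : ℝ => ((H.φ y : ℝ) : ℂ))) (H.k / 2) F (pr H) := by
  have hL := (Pool.Agent.H128R3.GJA.isHk_isL H h).2.2.2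
  have hb := b1 (dat H) hL
  obtain ⟨K, hK⟩ := grow (dat H) hL hb
  obtain ⟨hF, hX, hconj, hder⟩ := hb
  obtain ⟨⟨k0, hg, -⟩, -⟩ := Pool.Agent.H128R3.GJA.isL_nh (dat H) hL
  have hkp := kp_pos h
  have hkp1 := kp_one h
  have hkc : (kp H : ℂ) ≠ 0 := kp_ne h
  set δ : ℝ := if H.ε = 1 then 1 else 1 / kp H with hδ
  have hδ0 : 0 < δ := by rw [hδ]; split_ifs <;> positivity
  refine ⟨fun x => (δ : ℂ) * FF (dat H) (((1 / kp H ^ 2 : ℝ) : ℂ) * x), ?_, ?_, ?_, ?_, ?_⟩
  · exact (hF.comp (differentiable_id.const_mul _)).const_mul _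
  · by_contra hcon
    push Not at hcon
    have h1 : ∀ x, FF (dat H) x = 0 := by
      intro x
      have h2 := hcon ((kp H : ℂ) ^ 2 * x)
      rcases mul_eq_zero.1 h2 with h3 | h3
      · exact absurd h3 (by exact_mod_cast hδ0.ne')
      · have e : ((1 / kp H ^ 2 : ℝ) : ℂ) * ((kp H : ℂ) ^ 2 * x) = x := by
          push_cast
          field_simp
        rwa [e] at h3
    have h4 : FF (dat H) = fun _ => 0 := funext h1
    have h5 := hder k0
    rw [h4, iteratedDeriv_const] at h5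
    have h6 : ((gam (dat H) k0 : ℝ) : ℂ) = 0 := by
      rw [← h5]
      split_ifs <;> rfl
    have h7 := hg k0 le_rfl
    rw [Complex.ofReal_eq_zero] at h6
    exact h7.ne' h6
  · intro x
    show (δ : ℂ) * FF (dat H) (((1 / kp H ^ 2 : ℝ) : ℂ) * (starRingEnd ℂ) x) =
      (starRingEnd ℂ) ((δ : ℂ) * FF (dat H) (((1 / kp H ^ 2 : ℝ) : ℂ) * x))
    rw [map_mul, Complex.conj_ofReal, ← hconj, map_mul, Complex.conj_ofReal]
  · have hδ1 : δ ≤ 1 := by
      rw [hδ]
      split_ifs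
      · exact le_rfl
      · rw [div_le_one hkp]; exact hkp1
    refine ⟨|K|, fun x => ?_⟩
    show ‖(δ : ℂ) * FF (dat H) (((1 / kp H ^ 2 : ℝ) : ℂ) * x)‖ ≤ _
    rw [norm_mul, Complex.norm_real, Real.norm_of_nonneg hδ0.le]
    have h1 : ‖FF (dat H) (((1 / kp H ^ 2 : ℝ) : ℂ) * x)‖ ≤
        Real.exp (|K| * (1 + ‖x‖) ^ (3 / 4 : ℝ)) := by
      refine (hK _).trans (Real.exp_le_exp.2 ?_)
      have h2 : ‖((1 / kp H ^ 2 : ℝ) : ℂ) * x‖ ≤ ‖x‖ := by
        rw [norm_mul, Complex.norm_real, Real.norm_of_nonneg (by positivity)]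
        refine mul_le_of_le_one_left (norm_nonneg _) ?_
        rw [div_le_one (by positivity)]
        exact one_le_pow₀ hkp1
      calc K * (1 + ‖((1 / kp H ^ 2 : ℝ) : ℂ) * x‖) ^ (3 / 4 : ℝ)
          ≤ |K| * (1 + ‖((1 / kp H ^ 2 : ℝ) : ℂ) * x‖) ^ (3 / 4 : ℝ) := by
            have := le_abs_self K
            gcongr
        _ ≤ |K| * (1 + ‖x‖) ^ (3 / 4 : ℝ) := by
            have := abs_nonneg K
            gcongr
    calc δ * ‖FF (dat H) (((1 / kp H ^ 2 : ℝ) : ℂ) * x)‖ ≤ 1 * ‖FF (dat H) (((1 / kp H ^ 2 : ℝ) : ℂ) * x)‖ := by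
          gcongr
      _ ≤ _ := by rw [one_mul]; exact h1
  · intro z
    have h1 := X1_eq h z
    unfold X1 at h1
    rw [h1, ← hX]
    have e : (z / (kp H : ℂ)) ^ 2 = ((1 / kp H ^ 2 : ℝ) : ℂ) * z ^ 2 := by
      push_cast
      field_simp
    rw [e]
    unfold pr
    rw [hδ]
    by_cases he : H.ε = 1
    · simp only [he, if_true]
      push_cast
      ring
    · simp only [he, if_false]
      push_cast
      ring

end Pool.Agent.X305.Li
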