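import Pool.Agent.X305.Li.Coef
import Pool.Agent.X305.Li.Bohr
import Pool.Agent.H24R2.JP.Had

/-!
# Large negative Li coefficients from a zero off the line
-/

set_option autoImplicit false

namespace Pool.Agent.X305.Li

open Complex Filter Topology Polynomial Metric

/-- The Li coefficients of the function `f ((s - 1/2)²)` of `s`. -/
noncomputable def lf (f : ℂ → ℂ) (n : ℕ) : ℝ := (tc (n - 1) (logDeriv fun w => f (xw w))).re

lemma xw_diffAt {w : ℂ} (hw : ‖w‖ < 1) : DifferentiableAt ℂ xw w := by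
  have h1 : (1 : ℂ) - w ≠ 0 := by
    intro h
    have : w = 1 := by linear_combination -h
    rw [this, norm_one] at hw
    exact lt_irrefl _ hw
  unfold xw
  have h : DifferentiableAt ℂ (fun w : ℂ => 1 - w) w := (differentiableAt_const _).sub differentiableAt_id
  exact (((differentiableAt_const _).div h h1).sub (differentiableAt_const _)).pow 2

lemma diffOn_logDeriv {g : ℂ → ℂ} {ρ : ℝ} (hg : DifferentiableOn ℂ g (ball 0 ρ))
    (h0 : ∀ w ∈ ball (0 : ℂ) ρ, g w ≠ 0) : DifferentiableOn ℂ (logDeriv g) (ball 0 ρ) :=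
  (hg.deriv isOpen_ball).div hg h0

/-- Cauchy's estimates -/
lemma tc_bound {g : ℂ → ℂ} {ρ r : ℝ} (hr : 0 < r) (hrρ : r < ρ)
    (hg : DifferentiableOn ℂ g (ball 0 ρ)) : ∃ C : ℝ, 0 ≤ C ∧ ∀ n, ‖tc n g‖ ≤ C * (r⁻¹) ^ n := by
  have hsub : closedBall (0 : ℂ) r ⊆ ball 0 ρ := closedBall_subset_ball hrρ
  have hc : ContinuousOn g (closedBall 0 r) := (hg.mono hsub).continuousOn
  obtain ⟨C, hC⟩ := (isCompact_closedBall (0 : ℂ) r).exists_bound_of_continuousOn hc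
  refine ⟨max C 0, le_max_right _ _, fun n => ?_⟩
  have hd : DiffContOnCl ℂ g (ball 0 r) := by
    apply DifferentiableOn.diffContOnCl
    rw [closure_ball _ hr.ne']
    exact hg.mono hsub
  have h := norm_iteratedDeriv_le_of_forall_mem_sphere_norm_le n hr hd
    (fun z hz => (hC z (sphere_subset_closedBall hz)).trans (le_max_left C 0))
  have hf : (0 : ℝ) < n.factorial := by exact_mod_cast n.factorial_pos
  unfold tc
  rw [norm_div, Complex.norm_natCast, div_le_iff₀ hf]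
  refine h.trans (le_of_eq ?_)
  rw [inv_pow]
  field_simp

/-- upper bounds for the Li coefficients -/
theorem lf_bound {f : ℂ → ℂ} (hf : Differentiable ℂ f) {ρ r : ℝ} (hr : 0 < r) (hrρ : r < ρ)
    (hρ : ρ ≤ 1) (h0 : ∀ w ∈ ball (0 : ℂ) ρ, f (xw w) ≠ 0) :
    ∃ C : ℝ, 0 ≤ C ∧ ∀ n, |lf f n| ≤ C * (r⁻¹) ^ n := by
  have hg : DifferentiableOn ℂ (fun w => f (xw w)) (ball 0 ρ) := by
    intro w hw
    have h1 : ‖w‖ < 1 := by
      rw [mem_ball_zero_iff] at hw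
      linarith
    exact (hf.differentiableAt.comp w (xw_diffAt h1)).differentiableWithinAt
  obtain ⟨C, hC0, hC⟩ := tc_bound hr hrρ (diffOn_logDeriv hg h0)
  refine ⟨C, hC0, fun n => ?_⟩
  have h1 := Complex.abs_re_le_norm (tc (n - 1) (logDeriv fun w => f (xw w)))
  have h2 := hC (n - 1)
  have h3 : (r⁻¹) ^ (n - 1) ≤ (r⁻¹) ^ n :=
    pow_le_pow_right₀ ((one_le_inv₀ hr).2 (by linarith)) (Nat.sub_le _ _)
  have h4 := mul_le_mul_of_nonneg_left h3 hC0
  unfold lf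
  linarith

lemma re_inv_pow {z : ℂ} {r : ℝ} (hz : ‖z‖ = r) (hr : 0 < r) (n : ℕ)
    (h : |n * (z.arg / (2 * Real.pi)) - round (n * (z.arg / (2 * Real.pi)))| < 1 / 6) :
    1 / 2 * (r⁻¹) ^ n ≤ ((z ^ n)⁻¹).re := by
  have hpi := Real.pi_pos
  have e1 : z ^ n = (((r ^ n : ℝ)) : ℂ) * cexp (((n * z.arg : ℝ) : ℂ) * I) := by
    conv_lhs => rw [← Complex.norm_mul_exp_arg_mul_I z]
    rw [mul_pow, ← Complex.exp_nat_mul, hz]
    push_cast
    ring_nf
  have e2 : (z ^ n)⁻¹ = ((((r⁻¹) ^ n : ℝ)) : ℂ) * cexp (((-(n * z.arg) : ℝ) : ℂ) * I) := by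
    rw [e1, mul_inv, ← Complex.exp_neg]
    push_cast
    rw [inv_pow]
    ring_nf
  rw [e2, Complex.re_ofReal_mul, Complex.exp_ofReal_mul_I_re, Real.cos_neg]
  have e3 : Real.cos (n * z.arg) = Real.cos (2 * Real.pi *
      (n * (z.arg / (2 * Real.pi)) - round (n * (z.arg / (2 * Real.pi))))) := by
    have : (n * z.arg : ℝ) = 2 * Real.pi *
      (n * (z.arg / (2 * Real.pi)) - round (n * (z.arg / (2 * Real.pi)))) +
      (round (n * (z.arg / (2 * Real.pi))) : ℤ) * (2 * Real.pi) := by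
      field_simp
      ring
    conv_lhs => rw [this]
    rw [Real.cos_add_int_mul_two_pi]
  have h5 : 1 / 2 ≤ Real.cos (n * z.arg) := by
    rw [e3, ← Real.cos_pi_div_three, ← Real.cos_abs (2 * Real.pi * _)]
    apply Real.cos_le_cos_of_nonneg_of_le_pi (abs_nonneg _) (by linarith)
    rw [abs_mul, abs_of_pos (by positivity : 0 < 2 * Real.pi)]
    nlinarith
  have h6 : 0 < (r⁻¹) ^ n := by positivity
  nlinarith

/-- **A zero off the line gives large negative Li coefficients along every set of Bohr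
recurrence.** -/
theorem neg_core {P : ℂ[X]} {G : ℂ → ℂ} (hG : Differentiable ℂ G) {ρ : ℝ} (hρ1 : ρ < 1)
    (hG0 : ∀ w ∈ ball (0 : ℂ) ρ, G (xw w) ≠ 0) (hP4 : P.eval (1 / 4) ≠ 0) {w0 : ℂ}
    (hw0 : ‖w0‖ < ρ) (hPw : P.eval (xw w0) = 0) {S : Set ℕ} (hS : BohrRec S) :
    ∃ r : ℝ, 0 < r ∧ r ≤ ‖w0‖ ∧ ∀ N : ℕ, ∃ n ∈ S, N ≤ n ∧ 0 < n ∧
      lf (fun x => P.eval x * G x) n ≤ -(1 / 4 * (r⁻¹) ^ n) := by
  classical
  have hρ0 : 0 < ρ := (norm_nonneg _).trans_lt hw0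
  have hPne : P ≠ 0 := by rintro rfl; simp at hP4
  set s : Multiset ℂ := P.roots with hs
  have h4 : ∀ a ∈ s, a ≠ 1 / 4 := by
    intro a ha h
    apply hP4
    rw [← h]
    exact (mem_roots hPne).1 ha
  have ha0 : xw w0 ∈ s := (mem_roots hPne).2 hPw
  have hz0 : zz (xw w0) = w0 :=
    (xw_inj (hw0.trans hρ1) (norm_zz_le _) (zz_ne_one _) (xw_zz _).symm).symm
  obtain ⟨a1, ha1, hmin⟩ := s.toFinset.exists_min_image (fun a => ‖zz a‖) ⟨_, Multiset.mem_toFinset.2 ha0⟩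
  set r : ℝ := ‖zz a1‖ with hr
  have ha1s : a1 ∈ s := Multiset.mem_toFinset.1 ha1
  have hr0 : 0 < r := norm_pos_iff.2 (zz_ne_zero (h4 a1 ha1s))
  have hrw : r ≤ ‖w0‖ := by
    have := hmin _ (Multiset.mem_toFinset.2 ha0)
    rwa [hz0] at this
  -- the second radius
  obtain ⟨r3, hr3, hr3ρ, hr3min⟩ : ∃ r3 : ℝ, r < r3 ∧ r3 < ρ ∧ ∀ a ∈ s, ‖zz a‖ ≠ r → r3 ≤ ‖zz a‖ := by
    have h1 : ∀ᶠ t in 𝓝[>] r, t < ρ := nhdsWithin_le_nhds (gt_mem_nhds (hrw.trans_lt hw0))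
    have h2 : ∀ᶠ t in 𝓝[>] r, ∀ a ∈ s.toFinset, ‖zz a‖ ≠ r → t ≤ ‖zz a‖ := by
      rw [Filter.eventually_all_finset]
      intro a ha
      by_cases hne : ‖zz a‖ = r
      · exact Eventually.of_forall fun t h => absurd hne h
      · have h3 : r < ‖zz a‖ := lt_of_le_of_ne (hmin a ha) (Ne.symm hne)
        filter_upwards [nhdsWithin_le_nhds (gt_mem_nhds h3)] with t ht _ using ht.le
    have h5 : ∀ᶠ t in 𝓝[>] r, r < t := eventually_mem_nhdsWithin
    obtain ⟨t, ht1, ht2, ht3⟩ := (h5.and (h1.and h2)).exists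
    exact ⟨t, ht1, ht2, fun a ha => ht3 a (Multiset.mem_toFinset.2 ha)⟩
  have hr30 : 0 < r3 := hr0.trans hr3
  have hgd : DifferentiableOn ℂ (fun w => G (xw w)) (ball 0 ρ) := by
    intro w hw
    have h1 : ‖w‖ < 1 := by
      rw [mem_ball_zero_iff] at hw
      linarith
    exact (hG.differentiableAt.comp w (xw_diffAt h1)).differentiableWithinAt
  obtain ⟨C, hC0, hC⟩ := tc_bound hr30 hr3ρ (diffOn_logDeriv hgd hG0)
  have hga : AnalyticAt ℂ (fun w => G (xw w)) 0 :=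
    hgd.analyticAt (isOpen_ball.mem_nhds (mem_ball_self hρ0))
  have hg0 : G (xw 0) ≠ 0 := hG0 0 (mem_ball_self hρ0)
  -- the formula
  have hlf : ∀ n : ℕ, 0 < n → lf (fun x => P.eval x * G x) n = (ct s n).re +
      (tc (n - 1) (logDeriv fun w => G (xw w))).re := by
    intro n hn
    unfold lf
    rw [tc_poly hP4 hga hg0, Complex.add_re, Nat.sub_add_cancel hn]
  have hr3inv : 1 ≤ r3⁻¹ := (one_le_inv₀ hr30).2 (by linarith)
  -- the terms
  have hterm : ∀ n : ℕ, (∀ a ∈ s, |n * ((zz a).arg / (2 * Real.pi)) -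
      round (n * ((zz a).arg / (2 * Real.pi)))| < 1 / 6) → ∀ a ∈ s,
      (2 - zz a ^ n - (zz a ^ n)⁻¹).re ≤ 4 * (r3⁻¹) ^ n - (if ‖zz a‖ = r then 1 / 2 * (r⁻¹) ^ n else 0) := by
    intro n hn a ha
    have h1 : |(zz a ^ n).re| ≤ 1 := by
      refine (Complex.abs_re_le_norm _).trans ?_
      rw [norm_pow]
      exact pow_le_one₀ (norm_nonneg _) (norm_zz_le a)
    have h2 : 1 ≤ (r3⁻¹) ^ n := one_le_pow₀ hr3inv
    have h3 : (2 - zz a ^ n - (zz a ^ n)⁻¹).re = 2 - (zz a ^ n).re - ((zz a ^ n)⁻¹).re := by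
      rw [Complex.sub_re, Complex.sub_re]
      norm_num
    rw [h3]
    have h5 := (abs_le.1 h1).1
    split_ifs with h
    · have h4 := re_inv_pow h hr0 n (hn a ha)
      linarith
    · have h6 := hr3min a ha h
      have h7 : |((zz a ^ n)⁻¹).re| ≤ (r3⁻¹) ^ n := by
        refine (Complex.abs_re_le_norm _).trans ?_
        rw [norm_inv, norm_pow, ← inv_pow]
        exact pow_le_pow_left₀ (by positivity) (inv_anti₀ hr30 h6) n
      have h8 := (abs_le.1 h7).1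
      linarith
  have hsum : ∀ n : ℕ, (∀ a ∈ s, |n * ((zz a).arg / (2 * Real.pi)) -
      round (n * ((zz a).arg / (2 * Real.pi)))| < 1 / 6) →
      (ct s n).re ≤ 4 * s.card * (r3⁻¹) ^ n - 1 / 2 * (r⁻¹) ^ n := by
    intro n hn
    have e1 : (ct s n).re = (s.map fun a => (2 - zz a ^ n - (zz a ^ n)⁻¹).re).sum := by
      unfold ct
      have h := map_multiset_sum Complex.reLm (s.map fun a => 2 - zz a ^ n - (zz a ^ n)⁻¹)
      rw [Complex.reLm_coe, Multiset.map_map] at h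
      exact h
    rw [e1]
    have h1 : (s.map fun a => (2 - zz a ^ n - (zz a ^ n)⁻¹).re).sum ≤
        (s.map fun a => 4 * (r3⁻¹) ^ n - (if ‖zz a‖ = r then 1 / 2 * (r⁻¹) ^ n else 0)).sum :=
      Multiset.sum_map_le_sum_map _ _ fun a ha => hterm n hn a ha
    refine h1.trans ?_
    rw [Multiset.sum_map_sub]
    have h2 : (s.map fun _ => 4 * (r3⁻¹) ^ n).sum = 4 * s.card * (r3⁻¹) ^ n := by
      rw [Multiset.map_const', Multiset.sum_replicate, nsmul_eq_mul]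
      ring
    rw [h2]
    have h3 : 1 / 2 * (r⁻¹) ^ n ≤ (s.map fun a => if ‖zz a‖ = r then 1 / 2 * (r⁻¹) ^ n else 0).sum := by
      have h4 : 0 ≤ 1 / 2 * (r⁻¹) ^ n := by positivity
      have h5 := Multiset.single_le_sum (s := s.map fun a => if ‖zz a‖ = r then 1 / 2 * (r⁻¹) ^ n else 0)
        (fun x hx => by
          obtain ⟨a, -, rfl⟩ := Multiset.mem_map.1 hx
          split_ifs
          · exact h4
          · exact le_rfl) (1 / 2 * (r⁻¹) ^ n) (Multiset.mem_map.2 ⟨a1, ha1s, by rw [if_pos hr.symm]⟩)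
      exact h5
    linarith
  -- large n
  have hq : r3⁻¹ / r⁻¹ < 1 := by
    rw [div_lt_one (by positivity)]
    exact inv_strictAnti₀ hr0 hr3
  have hlim : Tendsto (fun n : ℕ => (4 * s.card + C) * (r3⁻¹ / r⁻¹) ^ n) atTop (𝓝 0) := by
    have h := (tendsto_pow_atTop_nhds_zero_of_lt_one (by positivity : 0 ≤ r3⁻¹ / r⁻¹) hq).const_mul
      (4 * s.card + C : ℝ)
    rwa [mul_zero] at h
  obtain ⟨N0, hN0⟩ := eventually_atTop.1 (hlim.eventually (gt_mem_nhds (by norm_num : (0 : ℝ) < 1 / 4)))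
  refine ⟨r, hr0, hrw, fun N => ?_⟩
  obtain ⟨n, hnS, hnN, hn0, hnB⟩ := hS.large (fun a : s.toFinset => (zz a).arg / (2 * Real.pi))
    (by norm_num : (0 : ℝ) < 1 / 6) (max N N0)
  refine ⟨n, hnS, (le_max_left _ _).trans hnN, hn0, ?_⟩
  have h1 := hsum n fun a ha => hnB ⟨a, Multiset.mem_toFinset.2 ha⟩
  have h2 := hN0 n ((le_max_right _ _).trans hnN)
  have h3 : (4 * s.card + C) * (r3⁻¹) ^ n ≤ 1 / 4 * (r⁻¹) ^ n := by
    rw [div_pow, mul_div_assoc', div_lt_iff₀ (by positivity)] at h2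
    exact h2.le
  have h4 : (tc (n - 1) (logDeriv fun w => G (xw w))).re ≤ C * (r3⁻¹) ^ n := by
    refine (Complex.re_le_norm _).trans ((hC _).trans ?_)
    exact mul_le_mul_of_nonneg_left (pow_le_pow_right₀ hr3inv (Nat.sub_le _ _)) hC0
  rw [hlf n hn0]
  linarith

end Pool.Agent.X305.Li
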