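import Pool.Agent.X305.Li.Neg

/-!
# Nonnegative Li coefficients if all zeros are on the line
-/

set_option autoImplicit false

namespace Pool.Agent.X305.Li

open Complex Filter Topology Polynomial Metric

lemma norm_zz_eq {a : ℂ} (him : a.im = 0) (hre : a.re ≤ 0) : ‖zz a‖ = 1 := by
  have h := norm_one_sub_inv (s_ne a)
  have h1 := sqrt_sq a
  set u : ℂ := a ^ (1 / 2 : ℂ) with hu
  have h2 : u.re = 0 := by
    have e1 := congrArg Complex.im h1
    have e2 := congrArg Complex.re h1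
    rw [pow_two, Complex.mul_im, him] at e1
    rw [pow_two, Complex.mul_re] at e2
    have e3 : u.re * u.im = 0 := by linarith
    rcases mul_eq_zero.1 e3 with h3 | h3
    · exact h3
    · rw [h3] at e2
      nlinarith
  have h3 : (1 / 2 + u : ℂ).re = 1 / 2 := by
    rw [Complex.add_re, h2]; norm_num
  rw [h3] at h
  have h4 : ‖zz a‖ ^ 2 = 1 := by
    unfold zz
    rw [← hu, h]; norm_num
  have h5 : (‖zz a‖ - 1) * (‖zz a‖ + 1) = 0 := by linear_combination h4
  rcases mul_eq_zero.1 h5 with h6 | h6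
  · linarith
  · linarith [norm_nonneg (zz a)]

lemma ct_nonneg {s : Multiset ℂ} (h : ∀ a ∈ s, ‖zz a‖ = 1) (n : ℕ) : 0 ≤ (ct s n).re := by
  have e1 : (ct s n).re = (s.map fun a => (2 - zz a ^ n - (zz a ^ n)⁻¹).re).sum := by
    unfold ct
    have h := map_multiset_sum Complex.reLm (s.map fun a => 2 - zz a ^ n - (zz a ^ n)⁻¹)
    rw [Complex.reLm_coe, Multiset.map_map] at h
    exact h
  rw [e1]
  apply Multiset.sum_nonneg
  intro x hx
  obtain ⟨a, ha, rfl⟩ := Multiset.mem_map.1 hx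
  have h1 : ‖zz a ^ n‖ = 1 := by rw [norm_pow, h a ha, one_pow]
  have h2 : ‖(zz a ^ n)⁻¹‖ = 1 := by rw [norm_inv, h1, inv_one]
  have h3 := Complex.re_le_norm (zz a ^ n)
  have h4 := Complex.re_le_norm ((zz a ^ n)⁻¹)
  rw [Complex.sub_re, Complex.sub_re]
  have h5 : (2 : ℂ).re = 2 := by norm_num
  rw [h5]
  linarith

/-- real polynomials with only nonpositive real roots -/
theorem lf_poly_nonneg {P : ℝ[X]} (hP : ∀ x : ℂ, aeval x P = 0 → x.im = 0 ∧ x.re ≤ 0) (n : ℕ) :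
    0 ≤ (tc n (logDeriv fun w => aeval (xw w) P)).re := by
  have h4 : (P.map (algebraMap ℝ ℂ)).eval (1 / 4) ≠ 0 := by
    intro h
    have h1 := (hP (1 / 4) (by rwa [aeval_def, ← eval_map])).2
    norm_num at h1
  have e : (fun w => aeval (xw w) P) = fun w => (P.map (algebraMap ℝ ℂ)).eval (xw w) * (fun _ => (1 : ℂ)) w := by
    funext w
    rw [mul_one, aeval_def, ← eval_map]
  rw [e, tc_poly h4 analyticAt_const one_ne_zero, tc_logDeriv_const, add_zero]
  apply ct_nonneg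
  intro a ha
  have h1 : aeval a P = 0 := by
    have h2 := (mem_roots (by rintro h; rw [h] at h4; simp at h4)).1 ha
    rw [IsRoot.def] at h2
    rwa [aeval_def, ← eval_map]
  exact norm_zz_eq (hP a h1).1 (hP a h1).2

lemma tlu_iter {φ : ℕ → ℂ → ℂ} {g : ℂ → ℂ} {U : Set ℂ} (hU : IsOpen U)
    (h : TendstoLocallyUniformlyOn φ g atTop U) (hd : ∀ N, DifferentiableOn ℂ (φ N) U) (k : ℕ) :
    TendstoLocallyUniformlyOn (fun N => iteratedDeriv k (φ N)) (iteratedDeriv k g) atTop U ∧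
      ∀ N, DifferentiableOn ℂ (iteratedDeriv k (φ N)) U := by
  induction k with
  | zero =>
    simp only [iteratedDeriv_zero]
    exact ⟨h, hd⟩
  | succ k ih =>
    simp only [iteratedDeriv_succ]
    exact ⟨ih.1.deriv (Eventually.of_forall ih.2) hU, fun N => (ih.2 N).deriv hU⟩

/-- the Li coefficients of an entire function of genus zero with nonpositive real zeros -/
theorem lf_nonneg {f : ℂ → ℂ} {K : ℝ} (hf : Differentiable ℂ f) (h0 : f 0 ≠ 0)
    (hsym : ∀ x, f ((starRingEnd ℂ) x) = (starRingEnd ℂ) (f x))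
    (hb : ∀ x, ‖f x‖ ≤ Real.exp (K * (1 + ‖x‖) ^ (3 / 4 : ℝ)))
    (hz : ∀ x, f x = 0 → x.im = 0 ∧ x.re ≤ 0) (n : ℕ) : 0 ≤ lf f n := by
  obtain ⟨P, hP, hlim⟩ := Pool.Agent.H24R2.JP.had f K hf h0 hsym hb
  set U : Set ℂ := ball 0 1
  have hU : IsOpen U := isOpen_ball
  have hxd : DifferentiableOn ℂ xw U := fun w hw =>
    (xw_diffAt (mem_ball_zero_iff.1 hw)).differentiableWithinAt
  have hne : ∀ w ∈ U, ∀ x : ℂ, x.im = 0 ∧ x.re ≤ 0 → xw w ≠ x := by
    rintro w hw x ⟨h1, h2⟩ rfl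
    have h3 := norm_zz_eq h1 h2
    have h4 := xw_inj (mem_ball_zero_iff.1 hw) (norm_zz_le _) (zz_ne_one _) (xw_zz (xw w)).symm
    rw [← h4] at h3
    exact absurd h3 (mem_ball_zero_iff.1 hw).ne
  have hF : ∀ w ∈ U, f (xw w) ≠ 0 := fun w hw h => hne w hw _ (hz _ h) rfl
  have hPn : ∀ N, ∀ w ∈ U, aeval (xw w) (P N) ≠ 0 := fun N w hw h =>
    hne w hw _ (hz _ (hP N _ h)) rfl
  have hcomp : TendstoLocallyUniformlyOn (fun N w => aeval (xw w) (P N)) (fun w => f (xw w))
      atTop U :=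
    (tendstoLocallyUniformlyOn_univ.2 hlim).comp xw (Set.mapsTo_univ _ _) hxd.continuousOn
  have hpd : ∀ N, DifferentiableOn ℂ (fun w => aeval (xw w) (P N)) U := by
    intro N w hw
    have h1 : DifferentiableAt ℂ (fun x : ℂ => aeval x (P N)) (xw w) := (P N).differentiable_aeval _
    exact (h1.comp w (xw_diffAt (mem_ball_zero_iff.1 hw))).differentiableWithinAt
  have hfd : DifferentiableOn ℂ (fun w => f (xw w)) U := fun w hw =>
    (hf.differentiableAt.comp w (xw_diffAt (mem_ball_zero_iff.1 hw))).differentiableWithinAt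
  have hder := hcomp.deriv (Eventually.of_forall hpd) hU
  have hld : TendstoLocallyUniformlyOn (fun N => logDeriv fun w => aeval (xw w) (P N))
      (logDeriv fun w => f (xw w)) atTop U :=
    hder.div₀ hcomp (hfd.deriv hU).continuousOn hfd.continuousOn hF
  have hit := (tlu_iter hU hld (fun N => diffOn_logDeriv (hpd N) (hPn N)) (n - 1)).1
  have hpt := hit.tendsto_at (mem_ball_self one_pos)
  have hpt2 : Tendsto (fun N => (tc (n - 1) (logDeriv fun w => aeval (xw w) (P N))).re) atTop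
      (𝓝 (lf f n)) := by
    unfold lf tc
    exact (Complex.continuous_re.tendsto _).comp (hpt.div_const _)
  refine ge_of_tendsto hpt2 (Eventually.of_forall fun N => ?_)
  exact lf_poly_nonneg (fun x hx => hz x (hP N x hx)) (n - 1)

/-- a zero off the line, for real entire functions -/
theorem lf_neg {f : ℂ → ℂ} (hf : Differentiable ℂ f) (h0 : f 0 ≠ 0)
    (hsym : ∀ x, f ((starRingEnd ℂ) x) = (starRingEnd ℂ) (f x)) (h4 : f (1 / 4) ≠ 0) {w0 : ℂ}
    (hw0 : ‖w0‖ < 1) (hz : f (xw w0) = 0) {S : Set ℕ} (hS : BohrRec S) :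
    ∃ r : ℝ, 0 < r ∧ r ≤ ‖w0‖ ∧ ∀ N : ℕ, ∃ n ∈ S, N ≤ n ∧ 0 < n ∧
      lf f n ≤ -(1 / 4 * (r⁻¹) ^ n) := by
  set ρ : ℝ := (‖w0‖ + 1) / 2 with hρ
  have hρ1 : ρ < 1 := by rw [hρ]; linarith
  have hρw : ‖w0‖ < ρ := by rw [hρ]; linarith
  have hc : ContinuousOn xw (closedBall 0 ρ) := by
    intro w hw
    have h1 : ‖w‖ < 1 := (mem_closedBall_zero_iff.1 hw).trans_lt hρ1
    exact (xw_diffAt h1).continuousAt.continuousWithinAt
  obtain ⟨R0, hR0⟩ := (isCompact_closedBall (0 : ℂ) ρ).exists_bound_of_continuousOn hc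
  set R : ℝ := max R0 1 with hR
  have hRpos : 0 < R := lt_of_lt_of_le one_pos (le_max_right _ _)
  obtain ⟨M0, hM0⟩ := (isCompact_closedBall (0 : ℂ) (2 * R)).exists_bound_of_continuousOn
    hf.continuous.continuousOn
  obtain ⟨n, hn⟩ := exists_nat_ge (∑ᶠ u, (MeromorphicOn.divisor f (closedBall 0 R) u : ℝ) * 1)
  obtain ⟨P, G, hG, -, -, hFG, hnz⟩ := Pool.Agent.H24R2.JP.had_split (M := M0) hRpos n f hf h0 hsym
    (fun w hw => (hM0 w hw).trans (by linarith [Real.add_one_le_exp M0])) hn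
  have hfe : f = fun x => (P.map (algebraMap ℝ ℂ)).eval x * G x := by
    funext x
    rw [hFG, aeval_def, ← eval_map]
  have hGb : ∀ w ∈ ball (0 : ℂ) ρ, G (xw w) ≠ 0 := by
    intro w hw
    apply hnz
    rw [mem_closedBall_zero_iff]
    exact (hR0 w (ball_subset_closedBall hw)).trans (le_max_left _ _)
  have hP4 : (P.map (algebraMap ℝ ℂ)).eval (1 / 4) ≠ 0 := by
    intro h
    apply h4
    rw [hfe]
    simp only [h, zero_mul]
  have hPw : (P.map (algebraMap ℝ ℂ)).eval (xw w0) = 0 := by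
    rw [hfe] at hz
    rcases mul_eq_zero.1 hz with h | h
    · exact h
    · exact absurd h (hGb w0 (mem_ball_zero_iff.2 hρw))
  have h := neg_core hG hρ1 hGb hP4 hρw hPw hS
  rw [← hfe] at h
  exact h

end Pool.Agent.X305.Li
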