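import Pool.Agent.X305.Li.Hk

/-!
# Positive kernels: the completed L-function does not vanish on the real line
-/

set_option autoImplicit false

namespace Pool.Agent.X305.Li

open Complex Filter Topology Polynomial Metric Pool.Agent.H471R3.GJ Pool.Agent.H128R3.GJB

/-- An entire function with positive derivatives at `0` does not vanish at `x ≥ 0`. -/
lemma ne_zero_of_deriv_pos {f : ℂ → ℂ} (hf : Differentiable ℂ f) {γ : ℕ → ℝ} (hγ : ∀ k, 0 < γ k)
    (h : ∀ k, iteratedDeriv k f 0 = ((γ k : ℝ) : ℂ)) {x : ℝ} (hx : 0 ≤ x) : f x ≠ 0 := by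
  have h1 := Complex.hasSum_taylorSeries_of_entire hf 0 (x : ℂ)
  have h2 := Complex.hasSum_re h1
  have h3 : ∀ n : ℕ, ((((n.factorial : ℂ))⁻¹ • ((x : ℂ) - 0) ^ n • iteratedDeriv n f 0)).re =
      (n.factorial : ℝ)⁻¹ * (x ^ n * γ n) := by
    intro n
    rw [h n, sub_zero, smul_eq_mul, smul_eq_mul]
    have : ((n.factorial : ℂ))⁻¹ * ((x : ℂ) ^ n * ((γ n : ℝ) : ℂ)) =
        (((n.factorial : ℝ)⁻¹ * (x ^ n * γ n) : ℝ) : ℂ) := by push_cast; ring
    rw [this, Complex.ofReal_re]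
  have h4 : HasSum (fun n : ℕ => (n.factorial : ℝ)⁻¹ * (x ^ n * γ n)) (f x).re := by
    refine h2.congr_fun ?_
    intro n
    exact (h3 n).symm
  have h5 : 0 < (f x).re := by
    have h6 := h4.summable.tsum_pos (fun n => by
      have := (hγ n).le
      positivity) 0 (by
      have := hγ 0
      positivity)
    rwa [h4.tsum_eq] at h6
  intro h0
  rw [h0, Complex.zero_re] at h5
  exact lt_irrefl _ h5

/-- If the kernel is positive, the completed function does not vanish on the real line. -/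
theorem ne_of_pos {H : Hk} (h : IsHk H) (he : H.ε = 1) (hφ : ∀ y, 0 < y → 0 < H.φ y) (a : ℝ) :
    mellin (fun y : ℝ => ((H.φ y : ℝ) : ℂ)) (((H.k / 2 : ℝ) : ℂ) + a) ≠ 0 := by
  have hL := (Pool.Agent.H128R3.GJA.isHk_isL H h).2.2.2
  obtain ⟨⟨hF, hX, hconj, hder⟩, hgp, -⟩ := Pool.Agent.H128R3.GJA.isL_all _ hL
  have hΦ : ∀ t, 0 < (dat H).Φ t := by
    intro t
    show 0 < PhiH H t
    unfold PhiH
    rw [if_pos he]
    unfold Phi0
    have := kp_pos h
    have h2 := hφ (Real.exp (t / kp H)) (Real.exp_pos _)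
    positivity
  have hgam := hgp hΦ
  have h1 := X1_eq h (a : ℂ)
  rw [if_pos he, one_mul, ← hX] at h1
  unfold X1 at h1
  rw [h1]
  have e : ((a : ℂ) / (kp H : ℂ)) ^ 2 = (((a / kp H) ^ 2 : ℝ) : ℂ) := by push_cast; rfl
  rw [e]
  exact ne_zero_of_deriv_pos hF hgam hder (by positivity)

end Pool.Agent.X305.Li
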