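import Pool.Agent.X305.Li.Growth
import Pool.Agent.X305.Li.Gen2
import Pool.Agent.W355.UN.Ab2
import Pool.Agent.W355.UN.Inst2

/-!
# Li's criterion for L-functions with an Euler product
-/

set_option autoImplicit false

namespace Pool.Agent.X305.Li

open Complex Filter Topology
open scoped ComplexConjugate
open Pool.Agent.W355.UN

/-- growth of order at most `3/2` in the half-plane -/
def GrR (F : ℂ → ℂ) : Prop := ∃ K : ℝ, ∀ s : ℂ, 2 ≤ s.re → ‖F s‖ ≤ Real.exp (K * (1 + ‖s‖) ^ (3 / 2 : ℝ))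

/-- polynomial bounds on the line `Re s = 2` -/
def PL2 (F : ℂ → ℂ) : Prop := ∃ (M : ℝ) (k : ℕ), 0 ≤ M ∧ ∀ s : ℂ, s.re = 2 → ‖F s‖ ≤ M * (1 + ‖s‖) ^ k

lemma GrR.mul {F G : ℂ → ℂ} (hF : GrR F) (hG : GrR G) : GrR fun s => F s * G s := by
  obtain ⟨K1, h1⟩ := hF
  obtain ⟨K2, h2⟩ := hG
  refine ⟨K1 + K2, fun s hs => ?_⟩
  rw [norm_mul, add_mul, Real.exp_add]
  exact mul_le_mul (h1 s hs) (h2 s hs) (norm_nonneg _) (Real.exp_pos _).le

lemma PL2.mul {F G : ℂ → ℂ} (hF : PL2 F) (hG : PL2 G) : PL2 fun s => F s * G s := by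
  obtain ⟨M1, k1, hM1, h1⟩ := hF
  obtain ⟨M2, k2, hM2, h2⟩ := hG
  refine ⟨M1 * M2, k1 + k2, by positivity, fun s hs => ?_⟩
  rw [norm_mul, pow_add]
  calc ‖F s‖ * ‖G s‖ ≤ (M1 * (1 + ‖s‖) ^ k1) * (M2 * (1 + ‖s‖) ^ k2) :=
        mul_le_mul (h1 s hs) (h2 s hs) (norm_nonneg _) (by positivity)
    _ = _ := by ring

lemma one_bd : GrR (fun _ => 1) ∧ PL2 (fun _ => 1) := by
  refine ⟨⟨0, fun s _ => ?_⟩, ⟨1, 0, zero_le_one, fun s _ => ?_⟩⟩
  · rw [norm_one, zero_mul, Real.exp_zero]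
  · rw [norm_one, pow_zero, mul_one]

lemma pow_bd {F : ℂ → ℂ} (hF : GrR F ∧ PL2 F) (r : ℕ) : GrR (fun s => F s ^ r) ∧ PL2 fun s => F s ^ r := by
  induction r with
  | zero =>
    simp only [pow_zero]
    exact one_bd
  | succ r ih =>
    simp only [pow_succ]
    exact ⟨ih.1.mul hF.1, ih.2.mul hF.2⟩

lemma prod_bd {ι : Type} (S : Finset ι) {F : ι → ℂ → ℂ} (hF : ∀ i, GrR (F i) ∧ PL2 (F i)) :
    GrR (fun s => ∏ i ∈ S, F i s) ∧ PL2 fun s => ∏ i ∈ S, F i s := by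
  classical
  induction S using Finset.induction_on with
  | empty =>
    simp only [Finset.prod_empty]
    exact one_bd
  | insert i S hi ih =>
    simp only [Finset.prod_insert hi]
    exact ⟨(hF i).1.mul ih.1, (hF i).2.mul ih.2⟩

lemma lin_bd (c : ℂ) : GrR (fun s => s - c) ∧ PL2 fun s => s - c := by
  have h : ∀ s : ℂ, ‖s - c‖ ≤ (1 + ‖c‖) * (1 + ‖s‖) ^ 1 := by
    intro s
    refine (norm_sub_le _ _).trans ?_
    rw [pow_one]
    nlinarith [norm_nonneg s, norm_nonneg c]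
  obtain ⟨K, -, hK⟩ := poly_le (M := 1 + ‖c‖) (by positivity) 1
  exact ⟨⟨K, fun s _ => (h s).trans (hK s)⟩, ⟨1 + ‖c‖, 1, by positivity, fun s _ => h s⟩⟩

variable {m r : ℕ} {N : ℝ} {a : Fin m → ℂ} {b c : ℕ → ℂ} {X : ℂ → ℂ}

/-- **L-functions with an Euler product have order at most `3/2`.** -/
theorem raw_gr (h : Raw m r N a b c X) : Gr X := by
  have hC := Pool.Agent.W672.UN.coef
  have hN0 : 0 < N := by linarith [h.hN]
  have hcp : GrR (fun s : ℂ => (N : ℂ) ^ (s / 2)) ∧ PL2 fun s : ℂ => (N : ℂ) ^ (s / 2) := by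
    have e : ∀ s : ℂ, (s / 2).re = s.re / 2 := fun s => by
      rw [show (2 : ℂ) = ((2 : ℝ) : ℂ) by norm_num, Complex.div_ofReal_re]
    refine ⟨⟨Real.log N, fun s _ => ?_⟩, ⟨N, 0, hN0.le, fun s hs => ?_⟩⟩
    · rw [Complex.norm_cpow_eq_rpow_re_of_pos hN0, Real.rpow_def_of_pos hN0]
      apply Real.exp_le_exp.2
      apply mul_le_mul_of_nonneg_left _ (Real.log_nonneg h.hN)
      rw [e]
      have h1 := Complex.re_le_norm s
      have h2 := le_base s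
      have h3 := norm_nonneg s
      linarith
    · rw [Complex.norm_cpow_eq_rpow_re_of_pos hN0, e, hs]
      norm_num
  have hga : GrR (fun s : ℂ => ∏ j, Gammaℝ (s + a j)) ∧ PL2 fun s : ℂ => ∏ j, Gammaℝ (s + a j) := by
    refine prod_bd Finset.univ fun j => ?_
    obtain ⟨K, hK, h1⟩ := gammaR_le (h.re_ge j)
    refine ⟨⟨K, fun s hs => (h1 s hs).1⟩, ⟨|Real.Gamma ((2 + (a j).re) / 2)|, 0, abs_nonneg _, fun s hs => ?_⟩⟩
    rw [pow_zero, mul_one]
    have h2 := (h1 s hs.ge).2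
    rw [hs] at h2
    exact h2.trans (le_abs_self _)
  have hL : GrR (fun s : ℂ => LSeries b s) ∧ PL2 fun s : ℂ => LSeries b s := by
    have h2 : LSeriesSummable b 2 := h.summ hC (by norm_num)
    have h4 : Summable fun n => ‖LSeries.term b 2 n‖ := h2.norm
    have h6 : ∀ s : ℂ, 2 ≤ s.re → ‖LSeries b s‖ ≤ ∑' n, ‖LSeries.term b 2 n‖ := by
      intro s hs
      have h3 : ∀ n, ‖LSeries.term b s n‖ ≤ ‖LSeries.term b 2 n‖ := fun n =>
        LSeries.norm_term_le_of_re_le_re b (by simpa using hs) n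
      have h5 : Summable fun n => ‖LSeries.term b s n‖ :=
        Summable.of_nonneg_of_le (fun _ => norm_nonneg _) h3 h4
      unfold LSeries
      exact (norm_tsum_le_tsum_norm h5).trans (h5.tsum_le_tsum h3 h4)
    have h0 : 0 ≤ ∑' n, ‖LSeries.term b 2 n‖ := tsum_nonneg fun _ => norm_nonneg _
    obtain ⟨K, -, hK⟩ := poly_le h0 0
    refine ⟨⟨K, fun s hs => (h6 s hs).trans ?_⟩, ⟨_, 0, h0, fun s hs => ?_⟩⟩
    · have := hK s
      rwa [pow_zero, mul_one] at this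
    · rw [pow_zero, mul_one]
      exact h6 s hs.ge
  have hl0 := lin_bd 0
  simp only [sub_zero] at hl0
  have hss := pow_bd (F := fun s => s * (s - 1)) ⟨hl0.1.mul (lin_bd 1).1, hl0.2.mul (lin_bd 1).2⟩ r
  have key := (hcp.1.mul hga.1).mul (hss.1.mul hL.1)
  have key2 := (hcp.2.mul hga.2).mul (hss.2.mul hL.2)
  have he : ∀ s : ℂ, 2 ≤ s.re → X s = ((N : ℂ) ^ (s / 2) * ∏ j, Gammaℝ (s + a j)) *
      ((s * (s - 1)) ^ r * LSeries b s) := by
    intro s hs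
    rw [h.eq' hC (by linarith), gaf_eq]
  obtain ⟨K, hK⟩ := key
  obtain ⟨M, k, -, hM⟩ := key2
  refine growth_fe h.entire h.order h.fe (σ := 2) one_le_two ⟨K, fun s hs => ?_⟩ (M := M) (k := k)
    fun s hs => ?_
  · rw [he s hs]
    exact hK s hs
  · rw [he s hs.ge]
    exact hM s hs

lemma raw_ne (h : Raw m r N a b c X) {s : ℂ} (hs : 1 < s.re) : X s ≠ 0 := by
  have hu := h.ul Pool.Agent.W672.UN.coef Pool.Agent.W12.UN.slow Pool.Agent.W215.UN.gam
  exact hu.Xne (by linarith)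

/-- **Li's criterion applies to the L-functions with an Euler product.** -/
theorem raw_completed (h : Raw m r N a b c X) : CompletedL X (1 / 2) := by
  refine ⟨h.entire, ⟨2, raw_ne h (by norm_num)⟩, ?_, raw_gr h⟩
  obtain ⟨ε, hε, hfe⟩ := h.fe
  refine ⟨ε, hε, fun s => ?_⟩
  have h1 := hfe (1 - s)
  rw [map_sub, map_one, sub_sub_cancel] at h1
  rw [← h1]
  push_cast
  congr 1
  ring

end Pool.Agent.X305.Li
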